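import Pool.Agent.Helper42.NS.PlcS
import Pool.Agent.Helper42.NS.Cnt
import Pool.Agent.Helper3.SG.Win
import Pool.Agent.Helper3.ZM.Win

/-! COUNT and fullness for the base (a factor) over the windows of the big system. -/

set_option autoImplicit false

namespace Pool.Agent.Helper83.NSA

open Finset Filter Topology Matrix Pool.Agent.Helper69.RK Pool.Agent.Helper31.EC Pool.Agent.Helper40.EL
open Pool.Agent.Helper31.EC.Sp
open Pool.Agent.Helper95.LF Pool.Agent.Helper89.LX Pool.Agent.Helper3.LF Pool.Agent.Helper42.NS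
open Pool.Agent.Helper59.LF (ladd fadd DM_ladd fadd_info_ge)
open Pool.Agent.Helper3.SG Pool.Agent.Helper3.ZM Pool.Agent.Helper3.PR

noncomputable section

variable {S : Sp} {m q : ℕ} {s : Sys S m} {s' : Sys S q}

/-- the cells of a factor are known to the maximal labels -/
theorem lcl_DMf (hF : Fac s s') {c : ℝ} (hc : 0 ≤ c) (h1 : c ≤ 1) {l : Lab S} (hl : DMc s c l) :
    DMc s c (lcl s' c hc l) := by
  have e : ∀ k, (fc (Setoid.comap (l k).p.π (s'.cells c 0 hc k)) : FL (l k).T) =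
      (l k).p.map (rpI (s'.cellsI c 0 hc) k) := fun k => rfl
  apply DM_ladd hl
  · have h2 : PLe (rpI (s'.cellsI c 0 hc)) (cA s c) := by
      rw [cA_eq, PLe_rpI, cl_A]
      exact (cells_le_A s' hc h1).trans (hF.A c)
    exact nul_map h2 l
  · have h2 : PLe (rpI (s'.cellsI c 0 hc)) (cB s) := by
      rw [cB_eq, PLe_rpI, cl_B]
      exact (cells_le_B s' hc h1).trans hF.B
    exact nul_map h2 l

theorem lcl_IsKapf (hF : Fac s s') {c : ℝ} (hc : 0 ≤ c) (h1 : c ≤ 1) {l : Lab S} (hl : IsKap s c l) :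
    IsKap s c (lcl s' c hc l) := by
  have h2 := lcl_DMf hF hc h1 hl.dm
  refine isKap_of_info h2 ?_
  rw [← hl.info_eq]
  have u1 := hl.dm.ub (cA_Bd s c)
  have u2 := h2.ub (cA_Bd s c)
  exact ul_mono u1 u2 (Eventually.of_forall fun k => div_le_div_of_nonneg_right (fadd_info_ge (l k) _) (S.F k).pos.le)

/-- COUNT for the factor over a window of the big system: `H(P'_λ, t_λ | kappa_c) ≤ q (λ - c)` -/
theorem cntf_H (hF : Fac s s') {D : ℕ} {c lam : ℝ} (hc : 0 ≤ c) (hcs : c ≤ lam) (h1 : lam ≤ 1)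
    (hH : HfP s s' D c lam) {κ : Lab S} (hκ : IsKap s c κ) :
    H (up1 κ (s'.P.dg lam ⊔ s'.t.dg lam)) ≤ q * (lam - c) := by
  classical
  have hc1 : c ≤ 1 := hcs.trans h1
  obtain ⟨x, hx⟩ := exists_canP s s' D c
  have hk0 : IsKap s c (lb x) := hx.2
  obtain ⟨K, hK, hT1⟩ := ad_sub hx.1.1
  obtain ⟨K2, hK2, hK21, hT2⟩ := typ_sub_ge (S := (lb x).sp)
    (fun k (ω : (x k).l.T.Ω) => sga s' D k ((x k).l.p.π ω) ((x k).g ω)) (2 * lam) (fun e he => by
      have h2 := hH.opt hx.1 (e / 2) (by linarith)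
      have h3 : Tendsto (fun k => (x k).l.T.pb (fun ω => ¬ 2 ^ ((2 * lam - e) * ((lb x).sp.F k).n) ≤
        sga s' D k ((x k).l.p.π ω) ((x k).g ω))) UF (𝓝 0) := by
        refine h2.congr fun k => ?_
        congr 1
        funext ω
        rw [sp_n]
        congr 2
        ring_nf
      exact h3)
  have hK2' : S.Sub K2 := (sp_Sub (lb x)).mp hK2
  set z : ∀ k, FD (S.F k) (Mon (q + 1) D) := fun k =>
    { l := (lcl s' c hc (lb x)) k
      g := (x k).g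
      g' := (x k).g'
      meas := fun ω ω' a b c d => (x k).meas ω ω' a b c.1 d } with hz
  have hlk : IsKap s c (lb z) := lcl_IsKapf hF hc hc1 hk0
  have hkc : Kc s' c hc (lb z) := lcl_Kc s' c hc _
  have h2 := cnt_gen (e := 0) hc hcs h1 le_rfl z hkc (by
      filter_upwards [hx.1.1 1 one_pos] with k hk ω hω
      exact (hk.2.2.1 ω hω).1.pdM) (fun k => K k + K2 k) (hK.add hK2') (by
      have h3 : Sp.Typ (S := (lb x).sp) (fun k (ω : (x k).l.T.Ω) =>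
          sph s' D k ((x k).l.p.π ω) ((x k).g ω) ≤ (K k + K2 k) * 2 ^ (2 * 0 * (S.F k).n)) := by
        refine typ_mono (S := (lb x).sp) hT1 ?_
        filter_upwards [hK2.1] with k h4 ω _ h5
        rw [mul_zero, zero_mul, Real.rpow_zero, mul_one]
        exact h5.trans (by linarith)
      exact h3) (by
      have h3 : Sp.Typ (S := (lb x).sp) (fun k (ω : (x k).l.T.Ω) =>
          2 ^ (2 * lam * (S.F k).n) ≤ (K k + K2 k) * sga s' D k ((x k).l.p.π ω) ((x k).g ω)) := by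
        refine typ_mono (S := (lb x).sp) hT2 ?_
        filter_upwards [hK.1, hx.1.1 1 one_pos] with k h4 h6 ω hω h5
        rw [sp_n] at h5
        have h7 : 0 ≤ sga s' D k ((x k).l.p.π ω) ((x k).g ω) :=
          gam_nonneg _ (fun y => (h6.2.2.1 ω hω).1.psd.2 y) _
        refine h5.trans ?_
        apply mul_le_mul_of_nonneg_right _ h7
        linarith
      exact h3)
  rw [mul_zero, add_zero] at h2
  rw [hκ.H_eq hlk]
  exact h2

/-- COUNT for the factor: `h(P'_λ | kappa_c, t) ≤ (q - 1) (λ - c)` -/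
theorem cntf_h (hF : Fac s s') {D : ℕ} {c lam : ℝ} (hc : 0 ≤ c) (hcs : c ≤ lam) (h1 : lam ≤ 1)
    (hH : HfP s s' D c lam) {κ : Lab S} (hκ : IsKap s c κ) :
    h (up1 κ (s'.P.dg lam)) (up1 κ s.T) ≤ (q - 1) * (lam - c) := by
  have h2 := cntf_H hF hc hcs h1 hH hκ
  rw [hF.ft] at h2
  have h3 : H (up1 κ (s.t.dg lam ⊔ s'.P.dg lam)) =
      H (up1 κ (s.t.dg lam)) + h (up1 κ (s'.P.dg lam)) (up1 κ (s.t.dg lam)) := by
    rw [up1_sup, H_chain]
  rw [sup_comm] at h2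
  have h4 : h (up1 κ (s'.P.dg lam)) (up1 κ s.T) ≤ h (up1 κ (s'.P.dg lam)) (up1 κ (s.t.dg lam)) :=
    h_anti (up1_mono κ (s.t.dg_mono h1))
  have h5 : lam - c ≤ H (up1 κ (s.t.dg lam)) := by
    have e1 := hκ.H_T hc (hcs.trans h1)
    have e2 := H_chain (up1 κ (s.t.dg lam)) (up1 κ s.T)
    have e3 : up1 κ (s.t.dg lam) ⊔ up1 κ s.T = up1 κ s.T := sup_eq_right.mpr (up1_mono κ (s.t.dg_mono h1))
    have e4 := (h_up1_le κ s.T (s.t.dg lam)).trans (s.t.h_dg_dg h1)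
    rw [e3] at e2
    simp only [Nat.cast_one, one_mul] at e4
    linarith
  linarith

/-- digits of the point of the factor of level `σ ≥ λ`: `h(P'_σ | kappa_c, t) ≤ q σ - (q - 1) c - λ` -/
theorem cntf_up (hF : Fac s s') {D : ℕ} {c lam σ : ℝ} (hc : 0 ≤ c) (hcs : c ≤ lam) (hls : lam ≤ σ) (h1 : σ ≤ 1)
    (hH : HfP s s' D c lam) {κ : Lab S} (hκ : IsKap s c κ) :
    h (up1 κ (s'.P.dg σ)) (up1 κ s.T) ≤ q * σ - (q - 1) * c - lam := by
  have h2 := cntf_h hF hc hcs (hls.trans h1) hH hκ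
  have h3 : h (up1 κ (s'.P.dg σ)) (up1 κ s.T) ≤ h (up1 κ (s'.P.dg lam)) (up1 κ s.T) +
      h (up1 κ (s'.P.dg σ)) (up1 κ (s'.P.dg lam)) := by
    have e1 := h_chain (up1 κ (s'.P.dg lam)) (up1 κ (s'.P.dg σ)) (up1 κ s.T)
    have e2 : up1 κ (s'.P.dg lam) ⊔ up1 κ (s'.P.dg σ) = up1 κ (s'.P.dg σ) :=
      sup_eq_right.mpr (up1_mono κ (s'.P.dg_mono hls))
    rw [e2] at e1
    have e3 : h (up1 κ (s'.P.dg σ)) (up1 κ (s'.P.dg lam) ⊔ up1 κ s.T) ≤ h (up1 κ (s'.P.dg σ)) (up1 κ (s'.P.dg lam)) :=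
      h_anti le_sup_left
    linarith
  have h4 := (h_up1_le κ (s'.P.dg σ) (s'.P.dg lam)).trans (s'.P.h_dg_dg hls)
  linarith

/-- FULLNESS of the factor at the level `σ`, from `ST` for the factor -/
theorem fulf (hF : Fac s s') {D : ℕ} (hD : 1 ≤ D) (hst : Pool.Agent.Helper59.EV.ST D q) {c σ : ℝ} (hc : 0 ≤ c)
    (hc1 : c < 1) (h1 : σ ≤ 1) {κ : Lab S} (hκ : IsKap s c κ) :
    q * σ - lvolP s s' D c / 2 ≤ h (up1 κ (s'.P.dg σ)) (up1 κ s.T) := by
  have h2 := fac_lvol hF hD hst hc hc1 hκ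
  rw [hF.T] at h2
  have h3 : h (up1 κ (s'.P.dg 1)) (up1 κ s.T) ≤ h (up1 κ (s'.P.dg σ)) (up1 κ s.T) +
      h (up1 κ (s'.P.dg 1)) (up1 κ (s'.P.dg σ)) := by
    have e1 := h_chain (up1 κ (s'.P.dg σ)) (up1 κ (s'.P.dg 1)) (up1 κ s.T)
    have e2 : up1 κ (s'.P.dg σ) ⊔ up1 κ (s'.P.dg 1) = up1 κ (s'.P.dg 1) :=
      sup_eq_right.mpr (up1_mono κ (s'.P.dg_mono h1))
    rw [e2] at e1
    have e3 : h (up1 κ (s'.P.dg 1)) (up1 κ (s'.P.dg σ) ⊔ up1 κ s.T) ≤ h (up1 κ (s'.P.dg 1)) (up1 κ (s'.P.dg σ)) :=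
      h_anti le_sup_left
    linarith
  have h4 := (h_up1_le κ (s'.P.dg 1) (s'.P.dg σ)).trans (s'.P.h_dg_dg h1)
  linarith

end

end Pool.Agent.Helper83.NSA
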