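import Pool.Agent.Helper83.NSA.Zc
import Pool.Agent.Helper83.NSA.Cnf
import Pool.Agent.Helper88.NSK.Sht
import Pool.Agent.Helper40.NSK.Top4

/-! THE END OF CASE A: an exact sheet (a graph over the base) at a window where the base is flat and full gives
`H(c,σ)` for the forms of the fixed degree. -/

set_option autoImplicit false

namespace Pool.Agent.Helper83.NSA

open Finset Filter Topology Matrix Pool.Agent.Helper69.RK Pool.Agent.Helper31.EC Pool.Agent.Helper40.EL
open Pool.Agent.Helper31.EC.Sp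
open Pool.Agent.Helper95.LF Pool.Agent.Helper89.LX Pool.Agent.Helper3.LF Pool.Agent.Helper42.NS
open Pool.Agent.Helper3.SG Pool.Agent.Helper3.ZM Pool.Agent.Helper3.PR Pool.Agent.Helper88.NSK
open Pool.Agent.Helper40.NSK

noncomputable section

variable {S : Sp} {q : ℕ}

/-- `h(M_σ | kappa_c, t)`, `M` = the coordinates different from `i` -/
def hMT (s : Sys S (q + 1)) (i : Fin (q + 1)) (c σ : ℝ) : ℝ :=
  h (up1 (kap s c) ((oth s.P i).dg σ)) (up1 (kap s c) s.T)

theorem hMT_eq {s : Sys S (q + 1)} {i : Fin (q + 1)} {c : ℝ} {l : Lab S} (hl : IsKap s c l) (σ : ℝ) :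
    h (up1 l ((oth s.P i).dg σ)) (up1 l s.T) = hMT s i c σ := h_kap hl (kap_isKap s c) _ _

theorem hMT_le_hPT (s : Sys S (q + 1)) (i : Fin (q + 1)) (c σ : ℝ) : hMT s i c σ ≤ hPT s c σ :=
  h_mono (up1_mono _ (oth_dg_le _ _ _))

/-- a maximal label of a window together with a label of a smaller window is maximal -/
theorem kap_join {m : ℕ} {s : Sys S m} {c : ℝ} {l l1 : Lab S} (hl : IsKap s c l) (h1 : DMc s c l1) :
    IsKap s c (l.join l1) := by
  have h2 : DMc s c (l.join l1) := Lab.DM.join hl.dm h1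
  refine isKap_of_info h2 ?_
  rw [← hl.info_eq]
  have u1 := hl.dm.ub (cA_Bd s c)
  have u2 := h2.ub (cA_Bd s c)
  exact ul_mono u1 u2 (Eventually.of_forall fun k =>
    div_le_div_of_nonneg_right ((l k).join_info_ge_left (l1 k)) (S.F k).pos.le)

/-- **E1**: over the windows after the window of the sheet, the digits of the point are digits of the base point -/
theorem sht_hPT {s : Sys S (q + 1)} {i : Fin (q + 1)} {D : ℕ} {c c' σ β : ℝ} (h : Sht s i D c σ β) (hβ : β < σ)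
    (h0 : 0 ≤ σ) (h1 : σ ≤ 1) (hcc : c ≤ c') : hPT s c' σ ≤ hMT s i c' σ := by
  obtain ⟨l1, hl1, v, hv, K, hK, hT⟩ := h
  have hd : DMc s c' l1 := DMc.mono hcc hl1
  have hk : IsKap s c' ((kap s c').join l1) := kap_join (kap_isKap s c') hd
  have hz := zc_gen s i (σ := σ) (b := β) (e := 0) h0 h1 le_rfl (by linarith) ((kap s c').join l1)
    (fun k w => v k (((kap s c' k).am (l1 k)).p2.π w))
    (Eventually.of_forall fun k w w' hw hw' hV hZ => by
      have a := ((kap s c' k).am (l1 k)).p2.supp w hw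
      have a' := ((kap s c' k).am (l1 k)).p2.supp w' hw'
      exact hv k _ _ a a' hV.2 ((((kap s c' k).am (l1 k)).p2.hZ w w' hw hw').mp hZ)) K hK (by
      have h2 : Sp.Typ (S := ((kap s c').join l1).sp) (fun k (w : (((kap s c').join l1) k).T.Ω) =>
          (∀ y : Fin (q + 1 + 1) → ℝ, (∀ j, |y j - ptf s k ((l1 k).p.π (((kap s c' k).am (l1 k)).p2.π w)) j| ≤ S.dl 1 k) →
            |MvPolynomial.eval y (pol (v k (((kap s c' k).am (l1 k)).p2.π w)))| ≤ K k * S.dl σ k) ∧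
          1 ≤ K k * |MvPolynomial.eval (ptf s k ((l1 k).p.π (((kap s c' k).am (l1 k)).p2.π w)))
            (MvPolynomial.pderiv i.succ (pol (v k (((kap s c' k).am (l1 k)).p2.π w))))| ∧
          ∀ (j : Fin (q + 1 + 1)) (y : Fin (q + 1 + 1) → ℝ),
            (∀ j', |y j' - ptf s k ((l1 k).p.π (((kap s c' k).am (l1 k)).p2.π w)) j'| ≤ S.dl β k) →
            |MvPolynomial.eval y (MvPolynomial.pderiv j (pol (v k (((kap s c' k).am (l1 k)).p2.π w))))| ≤ K k) := by
        have h3 : Tendsto (fun k => (l1 k).T.pb (fun ω => ¬ ((∀ y : Fin (q + 1 + 1) → ℝ,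
            (∀ j, |y j - ptf s k ((l1 k).p.π ω) j| ≤ S.dl 1 k) →
            |MvPolynomial.eval y (pol (v k ω))| ≤ K k * S.dl σ k) ∧
            1 ≤ K k * |MvPolynomial.eval (ptf s k ((l1 k).p.π ω)) (MvPolynomial.pderiv i.succ (pol (v k ω)))| ∧
            ∀ (j : Fin (q + 1 + 1)) (y : Fin (q + 1 + 1) → ℝ), (∀ j', |y j' - ptf s k ((l1 k).p.π ω) j'| ≤ S.dl β k) →
            |MvPolynomial.eval y (MvPolynomial.pderiv j (pol (v k ω)))| ≤ K k))) UF (𝓝 0) := hT
        refine h3.congr fun k => ?_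
        exact (pb_push ((kap s c' k).am (l1 k)).p2 _).symm
      refine typ_mono (S := ((kap s c').join l1).sp) h2 ?_
      refine Eventually.of_forall fun k w hw g => ?_
      obtain ⟨g1, g2, g3⟩ := g
      have e1 : (((kap s c').join l1) k).p.π w = (l1 k).p.π (((kap s c' k).am (l1 k)).p2.π w) :=
        (((kap s c' k).am (l1 k)).supp w hw).1
      constructor
      · have g4 := g1 _ (fun j => by rw [sub_self, abs_zero]; exact (S.dl_pos 1 k).le)
        rw [e1, add_zero]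
        refine g4.trans (le_of_eq ?_)
        unfold Sp.dl
        congr 2
        ring
      · rw [e1, zero_mul, Real.rpow_zero, mul_one]
        exact g2
      · intro u hu j
        rw [e1] at hu
        rw [zero_mul, Real.rpow_zero, mul_one]
        exact g3 j u hu)
  rw [mul_zero] at hz
  have e2 : hPT s c' σ = h (u1 ((kap s c').join l1) (s.P.dg σ)) (u1 ((kap s c').join l1) s.T) := by
    rw [u1_h]
    exact (IsKap.hPT_eq hk σ).symm
  have e3 : hMT s i c' σ = h (u1 ((kap s c').join l1) ((oth s.P i).dg σ)) (u1 ((kap s c').join l1) s.T) := by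
    rw [u1_h]
    exact (hMT_eq hk σ).symm
  rw [e2, e3]
  have e4 : u1 ((kap s c').join l1) (s.P.dg σ) ≤
      u1 ((kap s c').join l1) ((oth s.P i).dg σ) ⊔ u1 ((kap s c').join l1) ((s.P.co i).dg σ) := by
    rw [← u1_sup]
    refine u1_mono _ ?_
    rw [sup_comm]
    exact dg_le_oth s.P i σ
  have e5 := h_mono (B := u1 ((kap s c').join l1) s.T) e4
  have e6 := h_chain (u1 ((kap s c').join l1) ((oth s.P i).dg σ)) (u1 ((kap s c').join l1) ((s.P.co i).dg σ))
    (u1 ((kap s c').join l1) s.T)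
  rw [sup_comm (u1 ((kap s c').join l1) ((oth s.P i).dg σ)) (u1 ((kap s c').join l1) s.T),
    ← u1_sup _ s.T ((oth s.P i).dg σ)] at e6
  linarith

/-- the point of the projection -/
theorem prI_P (s : Sys S 3) (i : Fin 3) : (prI s i).P = oth s.P i := by
  apply VV_ext
  funext k ω j
  have h1 : (prI s i).P.v k ω j = ∑ l, selM i j l * s.P.v k ω l := pr_P_v s _ _ _ _ k ω j
  rw [h1, Finset.sum_eq_single (i.succAbove j)]
  · show (if i.succAbove j = i.succAbove j then (1 : ℝ) else 0) * _ = _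
    rw [if_pos rfl, one_mul]
    rfl
  · intro l _ hl
    show (if i.succAbove j = l then (1 : ℝ) else 0) * _ = _
    rw [if_neg (fun h => hl h.symm), zero_mul]
  · intro h
    exact absurd (Finset.mem_univ _) h

theorem fac_prI (s : Sys S 3) (i : Fin 3) : Fac s (prI s i) := Fac.pr s _ _ _ _

/-- **THE END OF CASE A**: fullness of the base as a hypothesis -/
theorem end_full : ∃ D0 : ℕ, ∀ D : ℕ, D0 ≤ D → ∀ (S : Sp) (s : Sys S 3) (i : Fin 3)
    (D' : ℕ) (c c1 σ β : ℝ), 0 ≤ c → c < c1 → c1 ≤ σ → σ ≤ 1 → β < σ → lamI s i c ≤ σ →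
    (∀ c', c ≤ c' → c' < c1 → RobP s c' σ) →
    (∀ c', c < c' → c' < c1 → lamI s i c' - lamI s i c ≤ c' - c) →
    (∀ c', c < c' → c' < c1 → 2 * σ - c' - lamI s i c' ≤ hMT s i c' σ) →
    Sht s i D' c σ β → Hf s D c σ := by
  obtain ⟨D0, H⟩ := pl_end 3 (1 / 2) (by norm_num)
  refine ⟨D0, fun D hD S s i D' c c1 σ β hc hc1 h1σ hσ hβ hl hr hfl hfull hS => ?_⟩
  refine H D hD S s c c1 σ hc hc1 h1σ hσ hr fun c' a b => ?_
  have h0 : 0 ≤ σ := (hc.trans hc1.le).trans h1σ
  have e1 := sht_hPT hS hβ h0 hσ (le_refl c)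
  have hF := fac_prI s i
  have e2 : hMT s i c σ ≤ (2 : ℕ) * σ - ((2 : ℕ) - 1) * c - lamI s i c := by
    have h2 := cntf_up hF (D := 1) (c := c) (lam := lamI s i c) (σ := σ) hc
      (lamP_ge_self hF le_rfl hc ((hc1.le.trans h1σ).trans hσ)) hl hσ (HfP_lamP le_rfl c) (kap_isKap s c)
    rw [prI_P] at h2
    exact h2
  have e3 := hfull c' a b
  have e4 := hMT_le_hPT s i c' σ
  have e5 := hfl c' a b
  push_cast at e2 ⊢
  linarith

/-- fullness of the base, from `ST 1 2` and the bound of the volume of its canonical 1-form -/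
theorem full_of_vol (hst : Pool.Agent.Helper59.EV.ST 1 2) {s : Sys S 3} {i : Fin 3} {c σ : ℝ} (h0 : 0 ≤ c)
    (h1 : c < 1) (hσ : σ ≤ 1) (hv : lvolP s (prI s i) 1 c ≤ 2 * (c + lamI s i c)) :
    2 * σ - c - lamI s i c ≤ hMT s i c σ := by
  have h2 := fulf (fac_prI s i) (D := 1) le_rfl hst (c := c) (σ := σ) h0 h1 hσ (kap_isKap s c)
  rw [prI_P] at h2
  have e3 : (2 : ℕ) * σ - lvolP s (prI s i) 1 c / 2 ≤ hMT s i c σ := h2
  push_cast at e3
  linarith

/-- **THE END OF CASE A** -/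
theorem end_a (hst : Pool.Agent.Helper59.EV.ST 1 2) : ∃ D0 : ℕ, ∀ D : ℕ, D0 ≤ D → ∀ (S : Sp) (s : Sys S 3) (i : Fin 3)
    (D' : ℕ) (c c1 σ β : ℝ), 0 ≤ c → c < c1 → c1 ≤ σ → σ ≤ 1 → β < σ → lamI s i c ≤ σ →
    (∀ c', c ≤ c' → c' < c1 → RobP s c' σ) →
    (∀ c', c < c' → c' < c1 → lamI s i c' - lamI s i c ≤ c' - c) →
    (∀ c', c < c' → c' < c1 → lvolP s (prI s i) 1 c' ≤ 2 * (c' + lamI s i c')) →
    Sht s i D' c σ β → Hf s D c σ := by
  obtain ⟨D0, H⟩ := end_full
  refine ⟨D0, fun D hD S s i D' c c1 σ β hc hc1 h1σ hσ hβ hl hr hfl hvol hS => ?_⟩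
  exact H D hD S s i D' c c1 σ β hc hc1 h1σ hσ hβ hl hr hfl
    (fun c' a b => full_of_vol hst (hc.trans a.le) ((b.trans_le h1σ).trans_le hσ) hσ (hvol c' a b)) hS

end

end Pool.Agent.Helper83.NSA
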