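import Pool.Agent.Helper40.NSK.Top4
import Pool.Agent.Helper40.NSK.Flat
import Pool.Agent.Helper99.LF.St
import Pool.Agent.Helper11.TZ.Def

/-! CASE A: frozen statements. `CorA` is the output of the corner builder; the Props `ST_LIPA`, `ST_VOLA`, `ST_CORA`
are the inputs of the assembly of `ST_CA` (file `Asm.lean`). -/

set_option autoImplicit false

namespace Pool.Agent.Helper83.NSA

open Finset Filter Topology Matrix Pool.Agent.Helper69.RK Pool.Agent.Helper31.EC Pool.Agent.Helper40.EL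
open Pool.Agent.Helper31.EC.Sp
open Pool.Agent.Helper89.LX Pool.Agent.Helper3.LF Pool.Agent.Helper42.NS
open Pool.Agent.Helper3.SG Pool.Agent.Helper3.PR
open Pool.Agent.Helper40.NSK Pool.Agent.Helper99.EC Pool.Agent.Helper99.CC Pool.Agent.Helper99.LF
open Pool.Agent.Helper11.TZ MeasureTheory

noncomputable section

variable {S : Sp}

/-- THE OUTPUT OF THE CORNER BUILDER (case A): a label `kappa_(c')` with a flat corner of the depth `e n` (base: the
coordinates different from `i`, lines of degree `D`), whose top coordinate is the top polynomial `q` of the window `c`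
of the thickness `η`; all functions are literally close to functions of the point with label measurable
coefficients -/
structure CorA (s : Sys S 3) (i : Fin 3) (D : ℕ) (c c' η b e ρ ε : ℝ) where
  he : 0 < e
  /-- the label `kappa_(c')` -/
  l : Lab S
  hl : IsKap s c' l
  /-- the corner -/
  tr : FTC (l.sp.chg l.V e he) 2 D
  cor : CorH (fc tr) 2 ρ ε
  /-- the line of the corner is a function of the line and of the window -/
  hA : (fc tr).iA ≤ chgL l.V e he (l.pj.map (lA s c'))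
  /-- the point of the corner is a function of the point -/
  hB : (fc tr).iB ≤ chgL l.V e he (l.pj.map (lB s))
  /-- the top polynomial -/
  q : ∀ k, (l k).T.Ω → Mon 4 D → ℝ
  top : Top (s.pull l.pj) (fun k => (l k).V) D c η (fun _ => Pi.single i 1) q
  /-- affine forms of the base point -/
  b0 : ∀ k, (l k).T.Ω → Fin 3 → ℝ
  b1 : ∀ k, (l k).T.Ω → Fin 3 → Fin 4 → ℝ
  hb : ∀ᶠ k in UF, ∀ ω ω', (l k).T.μ ω ≠ 0 → (l k).T.μ ω' ≠ 0 → (l k).V ω ω' → (l k).T.Z ω ω' →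
    b0 k ω = b0 k ω' ∧ b1 k ω = b1 k ω'
  bi : ∀ k ω j, b1 k ω j i.succ = 0
  K : ℕ → ℝ
  hK : S.Sub K
  lit : Sp.Typ (S := l.sp) (fun k (ω : (l k).T.Ω) =>
    |TR.ev tr.z k ω - MvPolynomial.eval (ptf s k ((l k).p.π ω)) (pol (q k ω))| ≤ K k * S.dl e k ∧
    (∀ j, |TR.ev (tr.q j) k ω| ≤ K k) ∧
    (∀ j, |TR.ev (tr.q j) k ω - (b0 k ω j + ∑ a, b1 k ω j a * ptf s k ((l k).p.π ω) a)| ≤ K k * S.dl e k) ∧
    ∀ j a, |b1 k ω j a| ≤ K k * 2 ^ (b * (S.F k).n))

/-- a property of all selected systems for suitable lists of gauges and functionals -/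
def Ex4 (D : ℕ) (P : ∀ (_ : ℝ) (S : Sp), Sys S 3 → Prop) : Prop :=
  ∃ (G : ℕ → Gg 3) (Φ : ℕ → Fnl 3) (M : ℝ), (∀ q S s, (Φ q).f S s ≤ M) ∧
    ∀ (g : ℝ) (S : Sp) (s : Sys S 3), Sel4 G Φ D g s → P g S s

theorem Ex4.mono {D : ℕ} {P Q : ∀ (_ : ℝ) (S : Sp), Sys S 3 → Prop} (h : Ex4 D P)
    (hPQ : ∀ g S s, P g S s → Q g S s) : Ex4 D Q := by
  obtain ⟨G, Φ, M, hM, h⟩ := h
  exact ⟨G, Φ, M, hM, fun g S s hs => hPQ g S s (h g S s hs)⟩

theorem Ex4.and {D : ℕ} {P Q : ∀ (_ : ℝ) (S : Sp), Sys S 3 → Prop} (h : Ex4 D P) (h' : Ex4 D Q) :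
    Ex4 D (fun g S s => P g S s ∧ Q g S s) := by
  classical
  obtain ⟨GA, ΦA, MA, hMA, hA⟩ := h
  obtain ⟨GB, ΦB, MB, hMB, hB⟩ := h'
  refine ⟨fun k => if k % 2 = 0 then GA (k / 2) else GB (k / 2), fun k => if k % 2 = 0 then ΦA (k / 2) else ΦB (k / 2),
    max MA MB, fun q S s => ?_, fun g S s hs => ?_⟩
  · by_cases hq : q % 2 = 0
    · simp only [hq, if_true]
      exact (hMA _ S s).trans (le_max_left _ _)
    · simp only [hq, if_false]
      exact (hMB _ S s).trans (le_max_right _ _)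
  · have e1 : ∀ k : ℕ, (2 * k) % 2 = 0 := fun k => by omega
    have e2 : ∀ k : ℕ, (2 * k) / 2 = k := fun k => by omega
    have e3 : ∀ k : ℕ, (2 * k + 1) % 2 = 1 := fun k => by omega
    have e4 : ∀ k : ℕ, (2 * k + 1) / 2 = k := fun k => by omega
    constructor
    · exact hA g S s (hs.sub (fun k => ⟨2 * k, by simp only [e1, e2, if_true]⟩)
        (fun k => ⟨2 * k, by simp only [e1, e2, if_true]⟩))
    · exact hB g S s (hs.sub (fun k => ⟨2 * k + 1, by simp only [e3, e4, one_ne_zero, if_false]⟩)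
        (fun k => ⟨2 * k + 1, by simp only [e3, e4, one_ne_zero, if_false]⟩))

/-- `Ex4` with the systems themselves -/
theorem Ex4.closed {D : ℕ} {P : ∀ (_ : ℝ) (S : Sp), Sys S 3 → Prop} (h : Ex4 D P) :
    ∃ (G : ℕ → Gg 3) (Φ : ℕ → Fnl 3) (M : ℝ), (∀ q S s, (Φ q).f S s ≤ M) ∧
      ∀ (g : ℝ) (S : Sp) (s : Sys S 3), Sel4 G Φ D g s → P g S s := h

/-! ### the inputs -/

/-- LIP at `c0` -/
def LipAt {S : Sp} (s : Sys S 3) (D : ℕ) : Prop :=
  ∃ C d : ℝ, 0 < d ∧ ∀ c, c0 s D - d < c → c < c0 s D → 1 - eta s D c ≤ C * (c0 s D - c)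

/-- row LIP(A) -/
def ST_LIPA (D : ℕ) : Prop := Ex4 D (fun _ _ s => ∀ i : Fin 3, ZDir s D i → lamI s i (c0 s D) < 1 → FlatI s D i →
  LipAt s D)

/-- row VOL: the base is full over the windows on the left of `c0` -/
def ST_VOLA (D : ℕ) : Prop := Ex4 D (fun _ _ s => ∀ i : Fin 3, ZDir s D i → lamI s i (c0 s D) < 1 → FlatI s D i →
  ∃ u, u < c0 s D ∧ ∀ c, u < c → c < c0 s D → 0 ≤ c → Pool.Agent.Helper3.SG.lvolP s (prI s i) 1 c ≤ 2 * (c + lamI s i c))

/-- row CORNER: at almost every window `c` on the left of `c0` at which `eta` is differentiable and the points are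
deficient at the level `eta c` there are corners of arbitrarily small depth and error -/
def ST_CORA (D : ℕ) : Prop := Ex4 D (fun g _ s => ∀ i : Fin 3, ZDir s D i → lamI s i (c0 s D) < 1 → FlatI s D i →
  LipAt s D → ∃ u, 0 ≤ u ∧ u < c0 s D ∧ ∀ᵐ c : ℝ, c ∈ Set.Ioo u (c0 s D) → ∀ w, 1 ≤ w → HasDerivAt (eta s D) w c →
    (∃ y', y' ≤ 3 - g / 2 ∧ HasDerivAt (s.F 0) y' (eta s D c)) → ∃ ρ b : ℝ, 0 < ρ ∧ 0 ≤ b ∧ b < eta s D c ∧
      ∀ ε e0 : ℝ, 0 < ε → 0 < e0 → ∃ e, e < e0 ∧ Nonempty (CorA s i D c (c + e / (w + 1)) (eta s D c) b e ρ ε))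

end

end Pool.Agent.Helper83.NSA
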