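import Pool.Agent.Helper83.NSA.Asm
import Pool.Agent.Helper91.GR.Vol

/-! CASE A for `z = P_2`: the corner builder with the dichotomy of the base (`CoraC`), and the assembly of the
statement `ST_CA2` (one orientation). -/

set_option autoImplicit false

namespace Pool.Agent.Helper83.NSA

open Finset Filter Topology Matrix Pool.Agent.Helper69.RK Pool.Agent.Helper31.EC Pool.Agent.Helper40.EL
open Pool.Agent.Helper31.EC.Sp
open Pool.Agent.Helper89.LX Pool.Agent.Helper3.LF Pool.Agent.Helper42.NS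
open Pool.Agent.Helper3.SG Pool.Agent.Helper3.PR
open Pool.Agent.Helper40.NSK Pool.Agent.Helper99.EC Pool.Agent.Helper99.CC Pool.Agent.Helper99.LF
open Pool.Agent.Helper11.TZ MeasureTheory

noncomputable section

variable {S : Sp}

/-- the coordinate `P_0` of the base is rich over the point, or the slabs of the base are of the width of the window -/
def Ry0 (s : Sys S 3) (D : ℕ) : Prop :=
  Pool.Agent.Helper91.GR.RYl s 0 ∨ ∃ u, u < c0 s D ∧ ∀ c, u < c → c < c0 s D → lamI s 2 c = c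

/-- row CORNER for `z = P_2` and `y = P_0` -/
def CoraC (D : ℕ) : Prop := Ex4 D (fun g _ s => ZDir s D 2 → lamI s 2 (c0 s D) < 1 → FlatI s D 2 →
  LipAt s D → Ry0 s D → ∃ u, 0 ≤ u ∧ u < c0 s D ∧ ∀ᵐ c : ℝ, c ∈ Set.Ioo u (c0 s D) → ∀ w, 1 ≤ w →
    HasDerivAt (eta s D) w c → (∃ y', y' ≤ 3 - g / 2 ∧ HasDerivAt (s.F 0) y' (eta s D c)) →
    ∃ ρ b : ℝ, 0 < ρ ∧ 0 ≤ b ∧ b < eta s D c ∧
      ∀ ε e0 : ℝ, 0 < ε → 0 < e0 → ∃ e, e < e0 ∧ Nonempty (CorA s 2 D c (c + e / (w + 1)) (eta s D c) b e ρ ε))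

/-- row VOL for `z = P_2` -/
def VolC (D : ℕ) : Prop := Ex4 D (fun _ _ s => ZDir s D 2 → lamI s 2 (c0 s D) < 1 → FlatI s D 2 → Ry0 s D →
  ∃ u, u < c0 s D ∧ ∀ c, u < c → c < c0 s D → 0 ≤ c → Pool.Agent.Helper3.SG.lvolP s (prI s 2) 1 c ≤ 2 * (c + lamI s 2 c))

theorem volC_of {D : ℕ} (h : ST_VOLA D) : VolC D := h.mono fun _ _ _ h1 a b c _ => h1 2 a b c

/-- case A in the orientation `z = P_2`, `y = P_0` -/
def ST_CA2 (D : ℕ) : Prop := Ex4 D (fun _ _ s => ZDir s D 2 → lamI s 2 (c0 s D) < 1 → FlatI s D 2 → Ry0 s D → False)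

/-- **CASE A IN ONE ORIENTATION FROM THE ROWS** -/
theorem st_ca2_of (hst : Pool.Agent.Helper59.EV.ST 1 2) (D1 : ℕ) (hlip : ∀ D : ℕ, D1 ≤ D → ST_LIPA D)
    (hvol : ∀ D : ℕ, D1 ≤ D → VolC D) (hcor : ∀ D : ℕ, D1 ≤ D → CoraC D) :
    ∃ D0 : ℕ, D1 ≤ D0 ∧ ∀ D : ℕ, D0 ≤ D → ST_CA2 D := by
  obtain ⟨D0, hend⟩ := end_full
  refine ⟨max (max D0 D1) 1, (le_max_right _ _).trans (le_max_left _ _), fun D hD => ?_⟩
  have hD0 : D0 ≤ D := ((le_max_left _ _).trans (le_max_left _ _)).trans hD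
  have hD1 : D1 ≤ D := ((le_max_right _ _).trans (le_max_left _ _)).trans hD
  have hD1' : 1 ≤ D := (le_max_right _ _).trans hD
  obtain ⟨G, Φ, M, hM, H⟩ := (((hlip D hD1).and (hvol D hD1)).and (hcor D hD1)).and (rob_list D)
  refine ⟨G, Φ, M, hM, fun g S s hs hz hl hf hr => ?_⟩
  obtain ⟨⟨⟨a1, a2⟩, a3⟩, -⟩ := H g S s hs
  have b1 := a1 2 hz hl hf
  exact case_a hD1' hst D0 hD0 hend hs (fun g' S' s' hs' => (H g' S' s' hs').2) hl hf b1 (a2 hz hl hf hr)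
    (a3 hz hl hf b1 hr)

end

end Pool.Agent.Helper83.NSA
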