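import Pool.Agent.Helper83.NSA.Fin2
import Pool.Agent.Helper60.CA.Cora

/-! CASE A is closed: `ST_CA`. -/

set_option autoImplicit false

namespace Pool.Agent.Helper83.NSA

/-- **CASE A** -/
theorem st_ca : Pool.Agent.Helper40.NSK.ST_CA :=
  st_ca_cor fun _ hD => Pool.Agent.Helper60.CA.corac Pool.Agent.Helper68.ST2.st12 hD

end Pool.Agent.Helper83.NSA
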