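import Pool.Agent.Helper83.NSA.Cor
import Pool.Agent.Helper30.TYP.Typ

/-! CASE A: the assembly of `ST_CA` from LIP at `c0`, the volume of the base, and the corner builder. -/

set_option autoImplicit false

namespace Pool.Agent.Helper83.NSA

open Finset Filter Topology Matrix Pool.Agent.Helper69.RK Pool.Agent.Helper31.EC Pool.Agent.Helper40.EL
open Pool.Agent.Helper31.EC.Sp
open Pool.Agent.Helper95.LF Pool.Agent.Helper89.LX Pool.Agent.Helper3.LF Pool.Agent.Helper42.NS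
open Pool.Agent.Helper3.SG Pool.Agent.Helper3.ZM Pool.Agent.Helper3.PR Pool.Agent.Helper88.NSK
open Pool.Agent.Helper40.NSK Pool.Agent.Helper99.EC Pool.Agent.Helper99.CC Pool.Agent.Helper99.LF
open Pool.Agent.Helper52.SL MeasureTheory

noncomputable section

/-! ### the robust numbers -/

/-- the coordinates different from `i` -/
def TM (i : Fin 3) : TFn 3 2 where
  f := fun a x t j => a (i.succAbove j) + t 0 * x (i.succAbove j)
  C := 1
  C0 := zero_le_one
  D := 2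
  bd := fun a x t K hK ha hx ht j => by
    have h1 : |t 0 * x (i.succAbove j)| ≤ K * K := by
      rw [abs_mul]
      exact mul_le_mul (ht 0) (hx _) (abs_nonneg _) hK
    have h2 := abs_add_le (a (i.succAbove j)) (t 0 * x (i.succAbove j))
    have h3 := ha (i.succAbove j)
    nlinarith

/-- the list of variables -/
def FA : Bool ⊕ Fin 3 → (q : ℕ) × TFn 3 q
  | Sum.inl true => ⟨3, TFn.P⟩
  | Sum.inl false => ⟨1, TFn.T⟩
  | Sum.inr i => ⟨2, TM i⟩

theorem TM_vv {S : Sp} (s : Sys S 3) (i : Fin 3) : (TM i).vv s = oth s.P i := VV_ext rfl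

/-- the digits of `P` and of `M` given `kappa_c` are robust -/
theorem rob_list (D : ℕ) : Ex4 D (fun _ S s => (∀ c σ, RobP s c σ) ∧ ∀ (i : Fin 3) (c σ : ℝ) (T : Sp) (p : Pj T S)
    (E : ∀ k, (T.F k).Ω → Prop) (hE : 0 < ul (T.pr E)), hMT (s.im p E hE) i c σ = hMT s i c σ) := by
  refine ⟨fun _ => GD 3 D, digN FA, 1, fun q S s => digN_le FA q s, fun g S s hs => ?_⟩
  have h1 : RobD FA s := robD_of_nat FA hs.rob.f
  refine ⟨fun c σ => h1.robP (i := Sum.inl true) (j := Sum.inl false) rfl rfl c σ, fun i c σ T p E hE => ?_⟩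
  have h2 := h1.h_eq [(Sum.inr i, σ)] [(Sum.inl false, 1)] c p E hE
  have e1 : ∀ {S : Sp} (s : Sys S 3), (digl FA [(Sum.inr i, σ)]).L s = (oth s.P i).dg σ := by
    intro S s
    rw [digl_one]
    show ((TM i).vv s).dg σ = _
    rw [TM_vv]
  have e2 : ∀ {S : Sp} (s : Sys S 3), (digl FA [(Sum.inl false, 1)]).L s = s.T := by
    intro S s
    rw [digl_one]
    rfl
  rw [e1, e1, e2, e2] at h2
  exact h2

/-- increments of a differentiable function on the right -/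
theorem incr_right {f : ℝ → ℝ} {w c : ℝ} (h : HasDerivAt f w c) (κ : ℝ) (hκ : 0 < κ) :
    ∃ d : ℝ, 0 < d ∧ ∀ r : ℝ, 0 < r → r < d → f (c + r) ≤ f c + (w + κ) * r := by
  rw [hasDerivAt_iff_isLittleO] at h
  have h1 := h.def hκ
  rw [Metric.eventually_nhds_iff] at h1
  obtain ⟨d, hd, h2⟩ := h1
  refine ⟨d, hd, fun r hr hrd => ?_⟩
  have h3 := h2 (y := c + r) (by
    rw [Real.dist_eq, add_sub_cancel_left, abs_of_pos hr]
    exact hrd)
  rw [add_sub_cancel_left, smul_eq_mul, Real.norm_eq_abs, Real.norm_eq_abs, abs_of_pos hr] at h3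
  have h4 := (abs_le.mp h3).2
  nlinarith

/-- **CASE A**, at one system -/
theorem case_a {D : ℕ} (hD : 1 ≤ D) (hst : Pool.Agent.Helper59.EV.ST 1 2) (D0 : ℕ) (hD0 : D0 ≤ D)
    (hend : ∀ D : ℕ, D0 ≤ D → ∀ (S : Sp) (s : Sys S 3) (i : Fin 3)
    (D' : ℕ) (c c1 σ β : ℝ), 0 ≤ c → c < c1 → c1 ≤ σ → σ ≤ 1 → β < σ → lamI s i c ≤ σ →
    (∀ c', c ≤ c' → c' < c1 → RobP s c' σ) →
    (∀ c', c < c' → c' < c1 → lamI s i c' - lamI s i c ≤ c' - c) →
    (∀ c', c < c' → c' < c1 → 2 * σ - c' - lamI s i c' ≤ hMT s i c' σ) →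
    Sht s i D' c σ β → Hf s D c σ)
    {G : ℕ → Gg 3} {Φ : ℕ → Fnl 3} {g : ℝ} {S : Sp} {s : Sys S 3} (hs : Sel4 G Φ D g s)
    (hrob : ∀ (g : ℝ) (S : Sp) (s : Sys S 3), Sel4 G Φ D g s → (∀ c σ, RobP s c σ) ∧
      ∀ (i : Fin 3) (c σ : ℝ) (T : Sp) (p : Pj T S)
      (E : ∀ k, (T.F k).Ω → Prop) (hE : 0 < ul (T.pr E)), hMT (s.im p E hE) i c σ = hMT s i c σ)
    {i : Fin 3} (hl : lamI s i (c0 s D) < 1) (hf : FlatI s D i) (hlip : LipAt s D)
    (hvol : ∃ u, u < c0 s D ∧ ∀ c, u < c → c < c0 s D → 0 ≤ c → Pool.Agent.Helper3.SG.lvolP s (prI s i) 1 c ≤ 2 * (c + lamI s i c))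
    (hcor : ∃ u, 0 ≤ u ∧ u < c0 s D ∧ ∀ᵐ c : ℝ, c ∈ Set.Ioo u (c0 s D) → ∀ w, 1 ≤ w → HasDerivAt (eta s D) w c →
    (∃ y', y' ≤ 3 - g / 2 ∧ HasDerivAt (s.F 0) y' (eta s D c)) → ∃ ρ b : ℝ, 0 < ρ ∧ 0 ≤ b ∧ b < eta s D c ∧
      ∀ ε e0 : ℝ, 0 < ε → 0 < e0 → ∃ e, e < e0 ∧ Nonempty (CorA s i D c (c + e / (w + 1)) (eta s D c) b e ρ ε)) :
    False := by
  obtain ⟨c1, hc10, hc1, hflat⟩ := hf
  obtain ⟨C, d, hd, hlip⟩ := hlip
  obtain ⟨u1, hu1, hvol⟩ := hvol
  obtain ⟨u2, hu20, hu2, hcor⟩ := hcor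
  have h1 : c0 s D ≤ 1 := Sel4.c0_le_one hD s
  -- a left neighbourhood of `c0`
  obtain ⟨v, hv⟩ : ∃ v : ℝ, v = max (max c1 u1) (max u2 (max (c0 s D - d)
    (c0 s D - (1 - lamI s i (c0 s D)) / (2 * (|C| + 1))))) := ⟨_, rfl⟩
  have hv0 : 0 ≤ v := by rw [hv]; exact hc10.trans ((le_max_left _ _).trans (le_max_left _ _))
  have hq : 0 < (1 - lamI s i (c0 s D)) / (2 * (|C| + 1)) := by
    have := abs_nonneg C
    have h2 : 0 < 1 - lamI s i (c0 s D) := by linarith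
    positivity
  have hvc : v < c0 s D := by
    rw [hv]
    exact max_lt (max_lt hc1 hu1) (max_lt hu2 (max_lt (by linarith) (by linarith)))
  have v1 : c1 ≤ v := by rw [hv]; exact (le_max_left _ _).trans (le_max_left _ _)
  have v2 : u1 ≤ v := by rw [hv]; exact (le_max_right _ _).trans (le_max_left _ _)
  have v3 : u2 ≤ v := by rw [hv]; exact (le_max_left _ _).trans (le_max_right _ _)
  have v4 : c0 s D - d ≤ v := by
    rw [hv]; exact (le_max_left _ _).trans ((le_max_right _ _).trans (le_max_right _ _))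
  have v5 : c0 s D - (1 - lamI s i (c0 s D)) / (2 * (|C| + 1)) ≤ v := by
    rw [hv]; exact (le_max_right _ _).trans ((le_max_right _ _).trans (le_max_right _ _))
  have e0 : c0 s D - (c0 s D - v) = v := by ring
  -- `eta` is larger than the thickness of the base
  have hle : ∀ c, v < c → c < c0 s D → lamI s i (c0 s D) < eta s D c := by
    intro c a b
    have g1 := hlip c (by linarith) b
    have g2 : C * (c0 s D - c) ≤ |C| * (c0 s D - c) := mul_le_mul_of_nonneg_right (le_abs_self C) (by linarith)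
    have g3 : c0 s D - c < (1 - lamI s i (c0 s D)) / (2 * (|C| + 1)) := by linarith
    rw [lt_div_iff₀ (by positivity)] at g3
    have g4 : 0 < c0 s D - c := by linarith
    have g5 := abs_nonneg C
    nlinarith
  have hlt : ∀ c, v < c → c < c0 s D → eta s D c < 1 := by
    intro c a b
    rcases (eta_le_one (s := s) hD c).eq_or_lt with h | h
    · exfalso
      refine Sel4.not_Hf (s := s) (D := D) (by linarith) b ?_
      rw [← h]
      exact Hf_eta hD c
    · exact h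
  -- a typical window
  obtain ⟨c, -, hcI, hP, -, ⟨w, hw, hdw⟩, -, hy, -⟩ := Pool.Agent.Helper30.TYP.typ (η := eta s D) (y := s.F 0)
    (c₀ := c0 s D) (d₀ := c0 s D - v) (C := C) (l := 1) (b := 3 - g / 2) (by linarith) (by linarith) h1
    (by
      intro c hc c' hc' hcc
      rw [e0] at hc hc'
      have h2 := eta_speed (s := s) hD (c := c) (c' := c') (by linarith [hc.1]) hcc.le (by linarith [hc'.2])
      rcases min_le_iff.mp h2 with h3 | h3
      · have := hlt c' hc'.1 hc'.2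
        linarith
      · linarith)
    (by
      intro c hc
      rw [e0] at hc
      exact hlt c hc.1 hc.2)
    (by
      intro c hc
      rw [e0] at hc
      exact hlip c (by linarith [hc.1]) hc.2)
    hs.dens (ι := Empty) (fun i => i.elim) (fun i => i.elim)
    (P := fun c => ∀ w, 1 ≤ w → HasDerivAt (eta s D) w c →
      (∃ y', y' ≤ 3 - g / 2 ∧ HasDerivAt (s.F 0) y' (eta s D c)) → ∃ ρ b : ℝ, 0 < ρ ∧ 0 ≤ b ∧ b < eta s D c ∧
      ∀ ε e0 : ℝ, 0 < ε → 0 < e0 → ∃ e, e < e0 ∧ Nonempty (CorA s i D c (c + e / (w + 1)) (eta s D c) b e ρ ε))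
    (by
      rw [e0]
      filter_upwards [hcor] with c hc hc'
      exact hc ⟨lt_of_le_of_lt v3 hc'.1, hc'.2⟩)
    (Q := fun _ => True) (Eventually.of_forall fun _ => trivial) (κ := Empty) (fun i => i.elim)
    (E := fun j => (1 / 2) ^ j) (fun i => i.elim) (fun j => by positivity) summable_geometric_two
    (fun i => i.elim) (fun i => i.elim) (fun i => i.elim) (δ := c0 s D - v) (by linarith)
  rw [e0] at hcI
  obtain ⟨hcv, hcc⟩ := hcI
  obtain ⟨ρ, b, hρ, hb0, hbη, hcorn⟩ := hP w hw hdw hy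
  have hc0' : 0 ≤ c := by linarith
  have hηc := hlt c hcv hcc
  have hw1 : 0 < w + 1 := by linarith
  -- the numbers
  obtain ⟨δ, hδ⟩ : ∃ δ : ℝ, δ = 1 / (4 * (w + 1)) := ⟨_, rfl⟩
  have hδ0 : 0 < δ := by rw [hδ]; positivity
  have hδ8 : δ ≤ 1 / 8 := by
    rw [hδ]
    apply one_div_le_one_div_of_le (by norm_num)
    linarith
  have hδw : δ * (w + 1) = 1 / 4 := by rw [hδ]; field_simp
  obtain ⟨ε0, hε0, hLF⟩ := Pool.Agent.Helper60.CS.st_lfe_K 2 D 2 le_rfl ρ δ (1 / 2) hρ hδ0 (by norm_num)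
  obtain ⟨d1, hd1, hinc⟩ := incr_right hdw (1 / 4) (by norm_num)
  obtain ⟨e, he, hne⟩ := hcorn ε0 (min (min d1 (c0 s D - c)) (min (1 - eta s D c) (eta s D c - b))) hε0
    (lt_min (lt_min hd1 (by linarith)) (lt_min (by linarith) (by linarith)))
  obtain ⟨r, hr⟩ : ∃ r : ℝ, r = e / (w + 1) := ⟨_, rfl⟩
  rw [← hr] at hne
  obtain ⟨Cr⟩ := hne
  have hepos := Cr.he
  have he1 : e < d1 := he.trans_le ((min_le_left _ _).trans (min_le_left _ _))
  have he2 : e < c0 s D - c := he.trans_le ((min_le_left _ _).trans (min_le_right _ _))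
  have he3 : e < 1 - eta s D c := he.trans_le ((min_le_right _ _).trans (min_le_left _ _))
  have he4 : e < eta s D c - b := he.trans_le ((min_le_right _ _).trans (min_le_right _ _))
  have hr0 : 0 < r := by rw [hr]; positivity
  have hre : r * (w + 1) = e := by rw [hr]; field_simp
  have hr2 : r ≤ e / 2 := by
    rw [hr]
    apply div_le_div_of_nonneg_left hepos.le (by norm_num)
    linarith
  have hLf := hLF _ Cr.tr Cr.cor
  obtain ⟨E, hE, l1, G1, hG1, hS⟩ := Cr.sht (D' := max D (2 * D * (2 + 1) + D)) (le_max_left _ _) (le_max_right _ _)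
    hδ0 (by linarith) hLf (by linarith) (by linarith) hb0
  -- the level of the sheet
  obtain ⟨σ, hσ⟩ : ∃ σ : ℝ, σ = eta s D c + (1 - δ) * e := ⟨_, rfl⟩
  rw [← hσ] at hS
  have hσ1 : σ ≤ 1 := by rw [hσ]; nlinarith only [hδ0, hepos, he3]
  have hσc : c + r < σ := by
    have h2 := eta_ge_self (s := s) hD hc0' (by linarith : c ≤ 1)
    rw [hσ]
    nlinarith only [hδ8, hr0, hr2, h2]
  -- the restricted system
  have hs1 := hs.im Cr.l.pj E hE
  have hs2 := hs1.im l1.pj G1 hG1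
  have hlam : ∀ x, lamI ((s.im Cr.l.pj E hE).im l1.pj G1 hG1) i x = lamI s i x := fun x =>
    (hs1.lamI_im l1.pj G1 hG1 i x).trans (hs.lamI_im Cr.l.pj E hE i x)
  have hMTe : ∀ x y, hMT ((s.im Cr.l.pj E hE).im l1.pj G1 hG1) i x y = hMT s i x y := fun x y =>
    ((hrob _ _ _ hs1).2 i x y _ l1.pj G1 hG1).trans ((hrob _ _ _ hs).2 i x y _ Cr.l.pj E hE)
  have hlσ : lamI s i (c + r) ≤ σ := by
    have h2 : lamI s i (c + r) ≤ lamI s i (c0 s D) := lamP_mono le_rfl (by linarith)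
    have h3 := hle c hcv hcc
    rw [hσ]
    nlinarith only [hδ8, hr0, hr2, h2, h3]
  have hH := hend D hD0 _ ((s.im Cr.l.pj E hE).im l1.pj G1 hG1) i (max D (2 * D * (2 + 1) + D)) (c + r)
    (min (c0 s D) σ) σ (eta s D c) (by linarith) (lt_min (by linarith) hσc) (min_le_right _ _) hσ1
    (by rw [hσ]; nlinarith only [hδ8, hepos]) (by rw [hlam]; exact hlσ) (fun c' _ _ => (hrob _ _ _ hs2).1 c' σ)
    (fun c' a b => by
      rw [hlam, hlam]
      have h2 := lt_of_lt_of_le b (min_le_left _ _)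
      exact (hflat (c + r) c' (by linarith) a.le h2).le)
    (fun c' a b => by
      rw [hlam, hMTe]
      have h2 := lt_of_lt_of_le b (min_le_left _ _)
      exact full_of_vol hst (by linarith) (by linarith) hσ1 (hvol c' (by linarith) h2 (by linarith))) hS
  have hH1 : Hf s D (c + r) σ := (hs.Hf_im Cr.l.pj E hE (c + r) σ).mp ((hs1.Hf_im l1.pj G1 hG1 (c + r) σ).mp hH)
  have h5 := le_eta hH1
  have h6 := hinc r hr0 (by linarith)
  rw [hσ] at h5
  nlinarith only [hδ8, hδw, hr0, hre, h5, h6]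

/-- **CASE A FROM THE ROWS** -/
theorem st_ca_of (hst : Pool.Agent.Helper59.EV.ST 1 2) (D1 : ℕ) (hlip : ∀ D : ℕ, D1 ≤ D → ST_LIPA D)
    (hvol : ∀ D : ℕ, D1 ≤ D → ST_VOLA D) (hcor : ∀ D : ℕ, D1 ≤ D → ST_CORA D) : ST_CA := by
  obtain ⟨D0, hend⟩ := end_full
  refine ⟨max (max D0 D1) 1, fun D hD => ?_⟩
  have hD0 : D0 ≤ D := ((le_max_left _ _).trans (le_max_left _ _)).trans hD
  have hD1 : D1 ≤ D := ((le_max_right _ _).trans (le_max_left _ _)).trans hD
  have hD1' : 1 ≤ D := (le_max_right _ _).trans hD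
  obtain ⟨G, Φ, M, hM, H⟩ := (((hlip D hD1).and (hvol D hD1)).and (hcor D hD1)).and (rob_list D)
  refine ⟨G, Φ, M, hM, fun g S s hs i hz hl hf => ?_⟩
  obtain ⟨⟨⟨a1, a2⟩, a3⟩, -⟩ := H g S s hs
  have b1 := a1 i hz hl hf
  exact case_a hD1' hst D0 hD0 hend hs (fun g' S' s' hs' => (H g' S' s' hs').2) hl hf b1 (a2 i hz hl hf)
    (a3 i hz hl hf b1)

end

end Pool.Agent.Helper83.NSA
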