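import Pool.Agent.Helper83.NSA.St
import Pool.Agent.Helper83.NSA.End
import Pool.Agent.Helper60.CS.Fwd

/-! CASE A: the step from a corner (`CorA`) to an exact sheet. -/

set_option autoImplicit false

namespace Pool.Agent.Helper83.NSA

open Finset Filter Topology Matrix Pool.Agent.Helper69.RK Pool.Agent.Helper31.EC Pool.Agent.Helper40.EL
open Pool.Agent.Helper31.EC.Sp
open Pool.Agent.Helper95.LF Pool.Agent.Helper89.LX Pool.Agent.Helper3.LF Pool.Agent.Helper42.NS
open Pool.Agent.Helper3.SG Pool.Agent.Helper3.ZM Pool.Agent.Helper3.PR Pool.Agent.Helper88.NSK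
open Pool.Agent.Helper40.NSK Pool.Agent.Helper99.EC Pool.Agent.Helper99.CC Pool.Agent.Helper99.LF
open Pool.Agent.Helper11.TZ
open Pool.Agent.Helper59.LF (h_label)

noncomputable section

variable {S : Sp}

/-- from functional dependence in the space over a label to the labels -/
theorem chg_nul (l : Lab S) {e : ℝ} (he : 0 < e) (X : (l.sp.chg l.V e he).Inf) (A : S.Inf)
    (h2 : cl X ≤ chgL l.V e he (l.pj.map (cl A))) :
    Nul S (fun k => h (fc (X.1 k) : FL (l k).T) ((l k).v ⊔ (l k).p.map (rpI A k))) := by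
  have h3 : Tendsto ((l.sp.chg l.V e he).rt X.1 (l.pj.pb A.1)) UF (𝓝 0) := h2
  have h4 := h3.const_mul e
  rw [mul_zero] at h4
  refine h4.congr fun k => ?_
  have hn := (S.F k).pos
  have e2 : h (fc (X.1 k) : FL (l k).T) ((l k).v ⊔ (l k).p.map (rpI A k)) =
      (l k).T.e (X.1 k) (((l k).V ⊓ Setoid.comap (l k).p.π (A.1 k)) ⊓ (l k).T.Z) := h_label (l k) _ _
  have e3 : (l.sp.chg l.V e he).rt X.1 (l.pj.pb A.1) k =
      (l k).T.e (X.1 k) (Setoid.comap (l k).p.π (A.1 k) ⊓ ((l k).V ⊓ (l k).T.Z)) / (e * (l k).T.n) := rfl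
  have e4 : (l k).T.e (X.1 k) (Setoid.comap (l k).p.π (A.1 k) ⊓ ((l k).V ⊓ (l k).T.Z)) =
      (l k).T.e (X.1 k) (((l k).V ⊓ Setoid.comap (l k).p.π (A.1 k)) ⊓ (l k).T.Z) := by
    apply (l k).T.e_congr_right
    intro ω ω' _ _
    exact ⟨fun g => ⟨⟨g.2.1, g.1⟩, g.2.2⟩, fun g => ⟨g.1.2, g.1.1, g.2⟩⟩
  have e6 : e * (l.sp.chg l.V e he).rt X.1 (l.pj.pb A.1) k =
      h (fc (X.1 k) : FL (l k).T) ((l k).v ⊔ (l k).p.map (rpI A k)) / (S.F k).n := by
    rw [e2, e3, e4, (l k).hn]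
    field_simp
  exact e6

theorem pol_sm {N D : ℕ} (y : ℝ) (v : Mon N D → ℝ) : pol (fun a => y * v a) = MvPolynomial.C y * pol v := by
  unfold pol
  rw [Finset.mul_sum]
  apply Finset.sum_congr rfl
  intro a _
  rw [map_mul, mul_assoc]

/-- the cells of the point of a corner -/
theorem pv_le {T : Sp} {d k : ℕ} (tr : FTC T d k) : tr.pv.dg 1 ≤ (fc tr).iB := by
  unfold FTC.pv
  rw [TR.vec_dg_eq]
  apply Finset.sup_le
  intro i _
  induction i using Fin.lastCases with
  | last =>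
    rw [Fin.snoc_last, ← QS.dg_mk _ le_rfl, ← fc_z]
    exact le_sup_right
  | cast i =>
    rw [Fin.snoc_castSucc, ← QS.dg_mk _ le_rfl, ← fc_q]
    refine le_trans ?_ (le_sup_left : (fc tr).iQ ≤ (fc tr).iB)
    induction i using Fin.cases with
    | zero => exact le_sup_right
    | succ i => exact (QS.dg_le_vd (fc tr).y 1 i).trans le_sup_left

/-- the cells of the line of a corner -/
theorem lv_le {T : Sp} {d k : ℕ} (tr : FTC T d k) : tr.lv.dg 1 ≤ (fc tr).iA := by
  unfold FTC.lv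
  rw [TR.vec_dg_eq]
  apply Finset.sup_le
  intro i _
  induction i using Fin.addCases with
  | left i =>
    rw [Fin.append_left]
    refine le_trans ?_ (le_sup_left : (fc tr).iL ≤ (fc tr).iA)
    induction i using Fin.addCases with
    | left i =>
      rw [Fin.append_left, ← QS.dg_mk _ le_rfl]
      exact (QS.dg_le_vd (fc tr).a 1 i).trans le_sup_left
    | right i =>
      rw [Fin.append_right, ← QS.dg_mk _ le_rfl]
      exact (QS.dg_le_vd (fc tr).x 1 i).trans le_sup_right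
  | right i =>
    rw [Fin.append_right, ← QS.dg_mk _ le_rfl]
    refine le_trans ?_ (le_sup_right : QS.dg (fc tr).b 1 ⊔ (fc tr).iF ≤ (fc tr).iA)
    induction i using Fin.cases with
    | zero => exact le_sup_left
    | succ i => exact (QS.dg_le_vd (fc tr).C 1 i).trans le_sup_right

namespace CorA

variable {s : Sys S 3} {i : Fin 3} {D : ℕ} {c c' η b e ρ ε : ℝ} (C : CorA s i D c c' η b e ρ ε)
include C

/-- bounds of the top polynomial at the point -/
theorem top_typ : ∃ K : ℕ → ℝ, S.Sub K ∧ Sp.Typ (S := C.l.sp) (fun k (ω : (C.l k).T.Ω) =>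
    (∀ (j : Fin 4) (y : Fin 4 → ℝ), (∀ j', |y j' - ptf s k ((C.l k).p.π ω) j'| ≤ S.dl η k) →
      S.dl η k * |MvPolynomial.eval y (MvPolynomial.pderiv j (pol (C.q k ω)))| ≤ K k) ∧
    1 ≤ K k * (S.dl η k * |MvPolynomial.eval (ptf s k ((C.l k).p.π ω)) (MvPolynomial.pderiv i.succ (pol (C.q k ω)))|)) := by
  obtain ⟨K1, hK1, hT1⟩ := C.top.bd (fun _ => 2) ((sp_Sub C.l).mpr (S.Sub_const (by norm_num)))
  obtain ⟨K2, hK2, hT2⟩ := C.top.der
  have hK1' : S.Sub K1 := (sp_Sub C.l).mp hK1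
  have hK2' : S.Sub K2 := (sp_Sub C.l).mp hK2
  have hCu : 0 ≤ 2 * Cu D := by
    have := Cu_one D
    linarith
  refine ⟨fun k => 2 * Cu D * K1 k + K2 k, ((S.Sub_const hCu).mul hK1').add hK2', ?_⟩
  refine typ_mono (S := C.l.sp) (typ_and (S := C.l.sp) hT1 hT2) ?_
  filter_upwards [hK1'.1, hK2'.1] with k h1 h2 ω hω g
  obtain ⟨g1, g2⟩ := g
  have hd : C.l.sp.dl η k = S.dl η k := sp_dl C.l η k
  have hdp := S.dl_pos η k
  have e0 : ptf (s.pull C.l.pj) k ω = ptf s k ((C.l k).p.π ω) := rfl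
  constructor
  · intro j y hy
    have hb : ∀ u : Fin 4 → ℝ, (∀ i', |u i' - ptf s k ((C.l k).p.π ω) i'| ≤ 2 * S.dl η k) →
        |MvPolynomial.eval u (pol (C.q k ω))| ≤ K1 k := by
      intro u hu
      refine g1 _ (by
        rw [sub_self, abs_zero]
        have := C.l.sp.dl_pos c k
        positivity) u fun i' => ?_
      rw [hd]
      exact hu i'
    have h3 := der_box D (pol (C.q k ω)) (pol_deg _) (ptf s k ((C.l k).p.π ω)) (2 * S.dl η k) (K1 k) (by linarith) hb y
      (fun i' => by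
        have := hy i'
        linarith) j
    have h4 := mul_le_mul_of_nonneg_left h3 hdp.le
    have e1 : S.dl η k * (2 * Cu D * K1 k / (2 * S.dl η k)) = 2 * Cu D * K1 k / 2 := by
      field_simp
    rw [e1] at h4
    have h5 : 0 ≤ 2 * Cu D * K1 k := mul_nonneg hCu h1
    linarith
  · rw [hd, e0] at g2
    have e1 : MvPolynomial.eval (ptf s k ((C.l k).p.π ω)) (Pool.Agent.Helper48.NS.dir (Pi.single i (1 : ℝ)) (pol (C.q k ω))) =
        MvPolynomial.eval (ptf s k ((C.l k).p.π ω)) (MvPolynomial.pderiv i.succ (pol (C.q k ω))) := by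
      unfold Pool.Agent.Helper48.NS.dir
      rw [map_sum, Finset.sum_eq_single i]
      · rw [Pi.single_eq_same, map_one, one_mul]
      · intro j _ hj
        rw [Pi.single_eq_of_ne hj, map_zero, zero_mul, map_zero]
      · intro h
        exact absurd (Finset.mem_univ _) h
    rw [e1] at g2
    refine g2.trans ?_
    apply mul_le_mul_of_nonneg_right _ (mul_nonneg hdp.le (abs_nonneg _))
    have h5 : 0 ≤ 2 * Cu D * K1 k := mul_nonneg hCu h1
    linarith

/-- **A CORNER GIVES AN EXACT SHEET**, if the corner has the finite agreement form -/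
theorem sht {K0 D' : ℕ} (hD : D ≤ D') (hK0 : K0 ≤ D') {δ : ℝ} (hδ : 0 < δ) (hδ1 : δ < 1) (hLf : Lf C.tr K0 δ (1 / 2))
    (hη : η + e ≤ 1) (hb : b + e ≤ η) (hb0 : 0 ≤ b) : ∃ (E : ∀ k, (C.l.sp.F k).Ω → Prop) (hE : 0 < ul (C.l.sp.pr E))
      (l1 : Lab (Sp.im C.l.pj E)) (G1 : ∀ k, (l1.sp.F k).Ω → Prop) (hG1 : 0 < ul (l1.sp.pr G1)),
      Sht ((s.im C.l.pj E hE).im l1.pj G1 hG1) i D' c' (η + (1 - δ) * e) η := by
  classical
  obtain ⟨K1, hK1, hT1⟩ := C.top_typ
  have he := C.he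
  obtain ⟨Kp, hKp, hpb⟩ := ptf_bd s
  -- literal data on the good indices
  set good : ℕ → Prop := fun k => ∀ ω ω', (C.l k).T.μ ω ≠ 0 → (C.l k).T.μ ω' ≠ 0 → (C.l k).V ω ω' → (C.l k).T.Z ω ω' →
    C.q k ω = C.q k ω' ∧ C.b0 k ω = C.b0 k ω' ∧ C.b1 k ω = C.b1 k ω' with hgood
  have hgd : ∀ᶠ k in UF, good k := by
    filter_upwards [C.top.meas, C.hb] with k h1 h2 ω ω' a a' hV hZ
    exact ⟨h1 ω ω' a a' hV hZ, h2 ω ω' a a' hV hZ⟩
  set v : ∀ k, (C.l k).T.Ω → Mon 4 D → ℝ := fun k ω => if good k then (fun a => S.dl η k * C.q k ω a) else 0 with hv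
  set b0 : ∀ k, (C.l k).T.Ω → Fin 3 → ℝ := fun k ω => if good k then C.b0 k ω else 0 with hb0'
  set b1 : ∀ k, (C.l k).T.Ω → Fin 3 → Fin 4 → ℝ := fun k ω => if good k then C.b1 k ω else 0 with hb1'
  set K : ℕ → ℝ := fun k => K1 k + C.K k with hK
  have hKs : S.Sub K := hK1.add C.hK
  -- the event of the data
  have hdata : Sp.Typ (S := C.l.sp) (fun k (ω : (C.l k).T.Ω) =>
      ShD s i C.l D 3 η (δ * e) ((1 - δ) * e) b 0 η v b0 b1 (fun k j ω => TR.ev (C.tr.q j) k ω)
        (fun k ω => TR.ev C.tr.z k ω) K k ω) := by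
    refine typ_mono (S := C.l.sp) (typ_and (S := C.l.sp) hT1 C.lit) ?_
    filter_upwards [hgd, hK1.1, C.hK.1] with k h0 h1 h2 ω hω g
    obtain ⟨⟨g1, g2⟩, g3, g4, g5, g6⟩ := g
    have hdp := S.dl_pos η k
    have ev : v k ω = fun a => S.dl η k * C.q k ω a := by rw [hv]; exact if_pos h0
    have e0 : b0 k ω = C.b0 k ω := by rw [hb0']; exact if_pos h0
    have e1 : b1 k ω = C.b1 k ω := by rw [hb1']; exact if_pos h0
    have hle1 : K1 k ≤ K k := by rw [hK]; simp only; linarith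
    have hle2 : C.K k ≤ K k := by rw [hK]; simp only; linarith
    have hder : ∀ (j : Fin 4) (y : Fin 4 → ℝ), |MvPolynomial.eval y (MvPolynomial.pderiv j (pol (v k ω)))| =
        S.dl η k * |MvPolynomial.eval y (MvPolynomial.pderiv j (pol (C.q k ω)))| := by
      intro j y
      rw [ev, pol_sm, MvPolynomial.pderiv_C_mul, map_mul, MvPolynomial.eval_C, abs_mul, abs_of_pos hdp]
    refine ⟨?_, ?_, ?_, ?_, ?_, ?_, ?_⟩
    · intro j y hy
      rw [hder]
      exact (g1 j y hy).trans hle1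
    · have e2 : (2 : ℝ) ^ (η * (S.F k).n) * MvPolynomial.eval (ptf s k ((C.l k).p.π ω)) (pol (v k ω)) =
          MvPolynomial.eval (ptf s k ((C.l k).p.π ω)) (pol (C.q k ω)) := by
        rw [ev, pol_sm, map_mul, MvPolynomial.eval_C, ← mul_assoc]
        have e3 : (2 : ℝ) ^ (η * (S.F k).n) * S.dl η k = 1 := by
          rw [dl_eq', ← Real.rpow_add (by norm_num), add_neg_cancel, Real.rpow_zero]
        rw [e3, one_mul]
      rw [e2]
      refine g3.trans ?_
      apply mul_le_mul hle2 (S.dl_anti _ k) (S.dl_pos _ k).le (h2.trans hle2)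
      nlinarith
    · intro j
      exact (g4 j).trans hle2
    · intro j
      have e2 : δ * e + (1 - δ) * e = e := by ring
      rw [e0, e1, e2]
      exact (g5 j).trans (mul_le_mul_of_nonneg_right hle2 (S.dl_pos _ k).le)
    · intro j a
      rw [e1]
      exact (g6 j a).trans (mul_le_mul_of_nonneg_right hle2 (by positivity))
    · rw [hder]
      exact g2.trans (mul_le_mul_of_nonneg_right hle1 (mul_nonneg hdp.le (abs_nonneg _)))
    · intro j
      have e3 : C.b1 k ω j i.succ = 0 := C.bi k ω j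
      rw [e1, e3, abs_zero]
      have := h2.trans hle2
      positivity
  set G : ∀ k, (C.l.sp.F k).Ω → Prop := fun k ω =>
    ShD s i C.l D 3 η (δ * e) ((1 - δ) * e) b 0 η v b0 b1 (fun k j ω => TR.ev (C.tr.q j) k ω)
      (fun k ω => TR.ev C.tr.z k ω) K k ω with hG
  have hG1 : (1 / 2 : ℝ) < ul (C.l.sp.pr G) := by
    rw [ul_pr_typ (S := C.l.sp) G hdata]
    norm_num
  have hA := (lv_le C.tr).trans C.hA
  have hB := (pv_le C.tr).trans C.hB
  refine exa_sht (s := s) (i := i) (c := c') (r := η) (a := δ * e) (w := (1 - δ) * e) (b := b) (g := 0) (β := η)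
    (ε := 1 / 2) (M := 3) hD hK0 C.hl v b0 b1 ?_ (fun k j ω => TR.ev (C.tr.q j) k ω) (fun k ω => TR.ev C.tr.z k ω)
    C.l.V e he (fun k => Setoid.ker (C.tr.pv.cellv 1 k)) (fun k => Setoid.ker (C.tr.lv.cellv 1 k))
    (by positivity) (mul_nonneg (by linarith) he.le) (by nlinarith) (by nlinarith) (by nlinarith) (by linarith)
    (by linarith) (by nlinarith) (by norm_num) ?_ ?_ ?_ ?_ K hKs G hG1 ?_
  · intro k ω ω' a a' hV hZ
    by_cases hk : good k
    · obtain ⟨f1, f2, f3⟩ := hk ω ω' a a' hV hZ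
      refine ⟨?_, ?_, ?_⟩
      · show (if good k then (fun a => S.dl η k * C.q k ω a) else 0) = if good k then (fun a => S.dl η k * C.q k ω' a) else 0
        rw [f1]
      · show (if good k then C.b0 k ω else 0) = if good k then C.b0 k ω' else 0
        rw [f2]
      · show (if good k then C.b1 k ω else 0) = if good k then C.b1 k ω' else 0
        rw [f3]
    · refine ⟨?_, ?_, ?_⟩
      · show (if good k then (fun a => S.dl η k * C.q k ω a) else 0) = if good k then (fun a => S.dl η k * C.q k ω' a) else 0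
        rw [if_neg hk, if_neg hk]
      · show (if good k then C.b0 k ω else 0) = if good k then C.b0 k ω' else 0
        rw [if_neg hk, if_neg hk]
      · show (if good k then C.b1 k ω else 0) = if good k then C.b1 k ω' else 0
        rw [if_neg hk, if_neg hk]
  · exact Eventually.of_forall fun k ω ω' _ _ hV _ => hV
  · have h2 := chg_nul C.l he (C.tr.lv.bdd 1).toInf (Inf.sup (Inf.sup (s.Ia 1) (s.Ix 1)) (s.It c')) (by
      rw [cl_A, ← io_eq (C.tr.lv.bdd 1)]
      exact hA)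
    rw [cA_eq]
    exact h2
  · have h2 := chg_nul C.l he (C.tr.pv.bdd 1).toInf (Inf.sup (s.IP 1) (s.It 1)) (by
      rw [cl_B, ← io_eq (C.tr.pv.bdd 1)]
      exact hB)
    rw [cB_eq]
    exact h2
  · filter_upwards [hLf] with k hk
    have en : ((C.l.sp.chg C.l.V e he).F k).n = e * (S.F k).n := by
      show e * (C.l k).T.n = _
      rw [(C.l k).hn]
    have e1 : (2 : ℝ) ^ (δ * ((C.l.sp.chg C.l.V e he).F k).n) = 2 ^ (δ * e * (S.F k).n) := by
      rw [en, mul_assoc]
    have e2 : (C.l.sp.chg C.l.V e he).dl (1 - δ) k = S.dl ((1 - δ) * e) k := by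
      unfold Sp.dl
      rw [en, mul_assoc]
    rw [e1, e2] at hk
    exact hk
  · exact Eventually.of_forall fun k ω _ h => h

end CorA

end

end Pool.Agent.Helper83.NSA
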