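import Pool.Agent.Helper83.NSA.Red
import Pool.Agent.Helper39.LIP.Fin
import Pool.Agent.Helper68.ST2.Top

/-! CASE A: `ST_LIPA` from LIP(A), and `ST_CA` from the rows which are left. -/

set_option autoImplicit false

namespace Pool.Agent.Helper83.NSA

open Finset Filter Topology Matrix Pool.Agent.Helper69.RK Pool.Agent.Helper31.EC Pool.Agent.Helper40.EL
open Pool.Agent.Helper31.EC.Sp
open Pool.Agent.Helper89.LX Pool.Agent.Helper3.LF Pool.Agent.Helper42.NS
open Pool.Agent.Helper3.SG Pool.Agent.Helper3.PR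
open Pool.Agent.Helper40.NSK Pool.Agent.Helper91.GR Pool.Agent.Helper52.SL MeasureTheory

noncomputable section

variable {S : Sp}

/-- row LIP(A) -/
theorem st_lipa {D : ℕ} (hD : 1 ≤ D) (hS : Pool.Agent.Helper39.LIP.S34P D) : ST_LIPA D := by
  obtain ⟨f, hf⟩ := exists_surjective_nat (ℕ ⊕ Fin 3 × Fin 2)
  refine ⟨fun k => Sum.elim (fun D' => Pool.Agent.Helper42.NS.GD 3 D')
    (fun zj : Fin 3 × Fin 2 => SJ (zj.1.succAbove zj.2) {0, (zj.1.succAbove (1 - zj.2)).succ}) (f k),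
    fun n => valN Pool.Agent.Helper39.LIP.vI n, 1, fun q S s => valN_le _ q S s, fun g S s hs i hz hl _ => ?_⟩
  obtain ⟨C, c1, -, -, h1, h2⟩ := Pool.Agent.Helper39.LIP.lipA hD hS Pool.Agent.Helper68.ST2.st12
    ⟨fun D' => by
      obtain ⟨k, hk⟩ := hf (Sum.inl D')
      exact ⟨k, by rw [hk]; rfl⟩, fun z j => by
      obtain ⟨k, hk⟩ := hf (Sum.inr (z, j))
      exact ⟨k, by rw [hk]; rfl⟩⟩ (fun n => ⟨n, rfl⟩) hs hz hl
  exact ⟨C, c0 s D - c1, by linarith, fun c hc hc' => h2 c (by linarith) hc'⟩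

/-- **CASE A**, the rows which are left: `S34P`, `HRY`, `CoraC` -/
theorem st_ca_rows (D1 : ℕ) (hS : ∀ D : ℕ, D1 ≤ D → Pool.Agent.Helper39.LIP.S34P D)
    (hry : ∀ D : ℕ, D1 ≤ D → Pool.Agent.Helper91.GR.HRY D) (hcor : ∀ D : ℕ, D1 ≤ D → CoraC D) : ST_CA :=
  st_ca_fin Pool.Agent.Helper68.ST2.st12 (max D1 1)
    (fun D hD => st_lipa ((le_max_right _ _).trans hD) (hS D ((le_max_left _ _).trans hD)))
    (fun D hD => hry D ((le_max_left _ _).trans hD)) (fun D hD => hcor D ((le_max_left _ _).trans hD))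

end

end Pool.Agent.Helper83.NSA
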