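import Pool.Agent.Helper83.NSA.Fin
import Pool.Agent.Helper59.CA.Ry
import Pool.Agent.Helper55.LP2.S34f

/-! CASE A: `ST_CA` from the corner row `CoraC` alone. -/

set_option autoImplicit false

namespace Pool.Agent.Helper83.NSA

open Pool.Agent.Helper40.NSK Pool.Agent.Helper91.GR

/-- **CASE A** from the corner -/
theorem st_ca_cor (hcor : ∀ D : ℕ, 1 ≤ D → CoraC D) : ST_CA :=
  st_ca_rows 1 (fun _ hD => Pool.Agent.Helper55.LP2.s34 hD) (fun _ hD => Pool.Agent.Helper59.CA.hry hD) hcor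

end Pool.Agent.Helper83.NSA
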