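import Pool.Agent.Helper83.NSA.Two
import Pool.Agent.Helper46.PM.Nam
import Pool.Agent.Helper91.GR.Voa

/-! CASE A: all orientations from the orientation `z = P_2`, `y = P_0`. -/

set_option autoImplicit false

namespace Pool.Agent.Helper83.NSA

open Finset Filter Topology Matrix Pool.Agent.Helper69.RK Pool.Agent.Helper31.EC Pool.Agent.Helper40.EL
open Pool.Agent.Helper31.EC.Sp
open Pool.Agent.Helper89.LX Pool.Agent.Helper3.LF Pool.Agent.Helper42.NS
open Pool.Agent.Helper3.SG Pool.Agent.Helper3.PR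
open Pool.Agent.Helper40.NSK Pool.Agent.Helper46.PM MeasureTheory

noncomputable section

variable {S : Sp}

/-- a property of the selected systems holds for all permutations of the coordinates of the selected systems -/
theorem Ex4.perm {D : ℕ} {P : ∀ (_ : ℝ) (S : Sp), Sys S 3 → Prop} (h : Ex4 D P) :
    Ex4 D (fun g S s => ∀ e : Equiv.Perm (Fin 3), P g S (s.pm e)) := by
  obtain ⟨G, Φ, M, hM, h⟩ := h
  obtain ⟨G', Φ', hM', h'⟩ := exists_lists4 G Φ hM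
  exact ⟨G', Φ', M, hM', fun g S s hs e => h g S (s.pm e) (h' hs e)⟩

theorem RYl_pm {m : ℕ} (s : Sys S m) (e : Equiv.Perm (Fin m)) (y : Fin m) :
    Pool.Agent.Helper91.GR.RYl (s.pm e) y ↔ Pool.Agent.Helper91.GR.RYl s (e y) := by
  unfold Pool.Agent.Helper91.GR.RYl
  simp only [pm_cor_h]

theorem exists_third : ∀ y i : Fin 3, y ≠ i → ∃ R : Fin 3, y ≠ R ∧ R ≠ i := by decide

/-- **CASE A FROM ONE ORIENTATION** -/
theorem st_ca_of_ca2 (D1 : ℕ) (h2 : ∀ D : ℕ, D1 ≤ D → ST_CA2 D) (hry : ∀ D : ℕ, D1 ≤ D → Pool.Agent.Helper91.GR.HRY D) : ST_CA := by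
  refine ⟨max D1 1, fun D hD => ?_⟩
  have hD1 : D1 ≤ D := (le_max_left _ _).trans hD
  have hD1' : 1 ≤ D := (le_max_right _ _).trans hD
  obtain ⟨G, Φ, M, hM, H⟩ := (h2 D hD1).perm.and (hry D hD1)
  refine ⟨G, Φ, M, hM, fun g S s hs i hz hl hf => ?_⟩
  obtain ⟨a1, a2⟩ := H g S s hs
  rcases a2 i hz hl hf with ⟨y, hyi, hy⟩ | ⟨u, hu, hflat⟩
  · obtain ⟨R, hR1, hR2⟩ := exists_third y i hyi
    obtain ⟨e, he⟩ := exists_nms hR1 hyi hR2
    refine a1 e ?_ ?_ ?_ (Or.inl ?_)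
    · rw [ZDir_pm, he.z]
      exact hz
    · rw [c0_pm, he.lamI_z]
      exact hl
    · rw [FlatI_pm, he.z]
      exact hf
    · rw [RYl_pm, he.y]
      exact hy
  · obtain ⟨y, hy⟩ : ∃ y : Fin 3, y ≠ i := exists_ne i
    obtain ⟨R, hR1, hR2⟩ := exists_third y i hy
    obtain ⟨e, he⟩ := exists_nms hR1 hy hR2
    refine a1 e ?_ ?_ ?_ (Or.inr ?_)
    · rw [ZDir_pm, he.z]
      exact hz
    · rw [c0_pm, he.lamI_z]
      exact hl
    · rw [FlatI_pm, he.z]
      exact hf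
    · obtain ⟨c1, hc10, hc1, -⟩ := hf
      refine ⟨max u 0, ?_, fun c a b => ?_⟩
      · rw [c0_pm]
        exact max_lt hu (lt_of_le_of_lt hc10 hc1)
      · rw [c0_pm] at b
        rw [he.lamI_z]
        have h1 : c0 s D ≤ 1 := Sel4.c0_le_one hD1' s
        have h3 : 0 ≤ c := ((le_max_right _ _).trans a.le)
        exact le_antisymm (hflat c (lt_of_le_of_lt (le_max_left _ _) a) b h3)
          (lamP_ge_self (fac_prI s i) le_rfl h3 (b.le.trans h1))

/-- **CASE A FROM THE ROWS** -/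
theorem st_ca_fin (hst : Pool.Agent.Helper59.EV.ST 1 2) (D1 : ℕ) (hlip : ∀ D : ℕ, D1 ≤ D → ST_LIPA D)
    (hry : ∀ D : ℕ, D1 ≤ D → Pool.Agent.Helper91.GR.HRY D) (hcor : ∀ D : ℕ, D1 ≤ D → CoraC D) : ST_CA := by
  obtain ⟨D0, h01, h2⟩ := st_ca2_of hst D1 hlip (fun D hD => volC_of (Pool.Agent.Helper91.GR.st_vola (hry D hD))) hcor
  exact st_ca_of_ca2 D0 h2 fun D hD => hry D (h01.trans hD)

end

end Pool.Agent.Helper83.NSA
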