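import Pool.Agent.Helper3.LF.Lin
import Pool.Agent.Helper3.LF.Uni

/-! Restriction of a polynomial to a line parallel to a coordinate axis, as a polynomial in one variable; differences
of values of polynomials with bounded derivatives. -/

set_option autoImplicit false

namespace Pool.Agent.Helper83.NSA

open MvPolynomial Pool.Agent.Helper3.LF

noncomputable section

variable {N : ℕ}

/-- the polynomial in the coordinate `i`, the other coordinates are those of `y` -/
def rz (i : Fin N) (y : Fin N → ℝ) (f : MvPolynomial (Fin N) ℝ) : MvPolynomial (Fin 1) ℝ :=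
  open Classical in aeval (fun j => if j = i then (X 0 : MvPolynomial (Fin 1) ℝ) else C (y j)) f

theorem rz_C (i : Fin N) (y : Fin N → ℝ) (c : ℝ) : rz i y (C c) = C c := by
  unfold rz
  rw [aeval_C]
  rfl

theorem rz_add (i : Fin N) (y : Fin N → ℝ) (f g : MvPolynomial (Fin N) ℝ) : rz i y (f + g) = rz i y f + rz i y g := by
  unfold rz
  rw [map_add]

theorem rz_mul (i : Fin N) (y : Fin N → ℝ) (f g : MvPolynomial (Fin N) ℝ) : rz i y (f * g) = rz i y f * rz i y g := by
  unfold rz
  rw [map_mul]

theorem rz_zero (i : Fin N) (y : Fin N → ℝ) : rz i y 0 = 0 := by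
  unfold rz
  rw [map_zero]

theorem rz_one (i : Fin N) (y : Fin N → ℝ) : rz i y 1 = 1 := by
  unfold rz
  rw [map_one]

theorem rz_X_self (i : Fin N) (y : Fin N → ℝ) : rz i y (X i) = X 0 := by
  unfold rz
  rw [aeval_X, if_pos rfl]

theorem rz_X_ne (i : Fin N) (y : Fin N → ℝ) {j : Fin N} (h : j ≠ i) : rz i y (X j) = C (y j) := by
  unfold rz
  rw [aeval_X, if_neg h]

theorem eval_rz (i : Fin N) (y : Fin N → ℝ) (f : MvPolynomial (Fin N) ℝ) (w : Fin 1 → ℝ) :
    eval w (rz i y f) = eval (Function.update y i (w 0)) f := by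
  induction f using MvPolynomial.induction_on with
  | C c => rw [rz_C, eval_C, eval_C]
  | add f g hf hg => rw [rz_add, map_add, map_add, hf, hg]
  | mul_X f n hf =>
    rw [rz_mul, map_mul, map_mul, hf, eval_X]
    congr 1
    by_cases h : n = i
    · rw [h, rz_X_self, eval_X, Function.update_self]
    · rw [rz_X_ne i y h, eval_C, Function.update_of_ne h]

theorem pderiv_rz (i : Fin N) (y : Fin N → ℝ) (f : MvPolynomial (Fin N) ℝ) :
    pderiv 0 (rz i y f) = rz i y (pderiv i f) := by
  induction f using MvPolynomial.induction_on with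
  | C c => rw [rz_C, pderiv_C, pderiv_C, rz_zero]
  | add f g hf hg => rw [rz_add, map_add, map_add, hf, hg, rz_add]
  | mul_X f n hf =>
    rw [rz_mul, pderiv_mul, pderiv_mul, rz_add, rz_mul, rz_mul, hf]
    congr 2
    by_cases h : n = i
    · rw [h, rz_X_self, pderiv_X_self, pderiv_X_self, rz_one]
    · rw [rz_X_ne i y h, pderiv_C, pderiv_X_of_ne h, rz_zero]

theorem rz_deg (i : Fin N) (y : Fin N → ℝ) (f : MvPolynomial (Fin N) ℝ) : (rz i y f).totalDegree ≤ f.totalDegree := by
  classical
  unfold rz
  conv_lhs => rw [f.as_sum, map_sum]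
  refine totalDegree_finsetSum_le fun s hs => ?_
  rw [aeval_monomial]
  refine (totalDegree_mul _ _).trans ?_
  have e1 : (algebraMap ℝ (MvPolynomial (Fin 1) ℝ)) (coeff s f) = C (coeff s f) := rfl
  rw [e1, totalDegree_C, zero_add, Finsupp.prod_fintype _ _ (fun _ => pow_zero _)]
  refine (totalDegree_finsetProd _ _).trans ?_
  have h1 : (s.sum fun _ e => e) ≤ f.totalDegree := le_totalDegree hs
  rw [Finsupp.sum_fintype _ _ (fun _ => rfl)] at h1
  refine le_trans (Finset.sum_le_sum fun j _ => ?_) h1
  refine (totalDegree_pow _ _).trans ?_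
  have h2 : (if j = i then (X 0 : MvPolynomial (Fin 1) ℝ) else C (y j)).totalDegree ≤ 1 := by
    split_ifs
    · exact (totalDegree_X _).le
    · rw [totalDegree_C]
      exact Nat.zero_le _
  calc s j * _ ≤ s j * 1 := Nat.mul_le_mul_left _ h2
    _ = s j := mul_one _

/-- differences of values -/
theorem dif_le (f : MvPolynomial (Fin N) ℝ) (p p' : Fin N → ℝ) (ρ M : ℝ) (hp : ∀ i, |p' i - p i| ≤ ρ)
    (hM : ∀ u : Fin N → ℝ, (∀ i, |u i - p i| ≤ ρ) → ∀ j, |eval u (pderiv j f)| ≤ M) :
    |eval p' f - eval p f| ≤ N * (ρ * M) := by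
  set g : Polynomial ℝ := lin p (fun i => p' i - p i) f with hg
  have e0 : g.eval 0 = eval p f := by
    rw [hg, eval_lin]
    congr 2
    funext k
    ring
  have e1 : g.eval 1 = eval p' f := by
    rw [hg, eval_lin]
    congr 2
    funext k
    ring
  rw [← e0, ← e1]
  obtain ⟨c, ⟨hc0, hc1⟩, hc⟩ := exists_deriv_eq_slope (fun x => g.eval x) (show (0 : ℝ) < 1 from one_pos)
    g.continuous.continuousOn (fun x _ => g.differentiable.differentiableAt.differentiableWithinAt)
  have h1 : g.eval 1 - g.eval 0 = deriv (fun x => g.eval x) c := by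
    rw [hc]
    simp
  rw [h1, Polynomial.deriv, hg, deriv_lin, Polynomial.eval_finsetSum]
  refine (Finset.abs_sum_le_sum_abs _ _).trans ?_
  have h2 : ∀ k : Fin N, |Polynomial.eval c (Polynomial.C (p' k - p k) * lin p (fun i => p' i - p i) (pderiv k f))| ≤
      ρ * M := by
    intro k
    rw [Polynomial.eval_mul, Polynomial.eval_C, eval_lin, abs_mul]
    have h3 := hM (fun k => p k + c * (p' k - p k)) (fun i => by
      have e2 : p i + c * (p' i - p i) - p i = c * (p' i - p i) := by ring
      rw [e2, abs_mul, abs_of_pos hc0]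
      calc c * |p' i - p i| ≤ 1 * |p' i - p i| := mul_le_mul_of_nonneg_right hc1.le (abs_nonneg _)
        _ ≤ ρ := by rw [one_mul]; exact hp i) k
    exact mul_le_mul (hp k) h3 (abs_nonneg _) ((abs_nonneg _).trans (hp k))
  refine (Finset.sum_le_sum fun k _ => h2 k).trans (le_of_eq ?_)
  simp

/-- a bound of a derivative from a bound of the polynomial -/
theorem der_box (D : ℕ) (f : MvPolynomial (Fin N) ℝ) (hf : f.totalDegree ≤ D) (p : Fin N → ℝ) (R M : ℝ) (hR : 0 < R)
    (hM : ∀ u : Fin N → ℝ, (∀ i, |u i - p i| ≤ R) → |eval u f| ≤ M) (u : Fin N → ℝ) (hu : ∀ i, |u i - p i| ≤ R / 2)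
    (j : Fin N) : |eval u (pderiv j f)| ≤ 2 * Cu D * M / R := by
  have h2 : 0 < R / 2 := half_pos hR
  have h3 := uni_affine D (lne u j f) ((natDegree_lin _ _ _).trans hf) 1 0 (R / 2) 1 0 M h2 le_rfl
    (by rw [sub_zero, abs_zero, one_mul]; exact h2.le) (by
      intro l hl
      rw [eval_lne]
      apply hM
      intro i
      by_cases h : i = j
      · rw [h, Function.update_self]
        have n0 := nod_nonneg D l
        have n1 := nod_le D l hl
        have h5 : |R / 2 * nod D l| ≤ R / 2 := by
          rw [abs_of_nonneg (by positivity)]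
          nlinarith
        have h6 : u j + (0 + R / 2 * nod D l) - p j = (u j - p j) + R / 2 * nod D l := by ring
        rw [h6]
        refine (abs_add_le _ _).trans ?_
        have := hu j
        linarith
      · rw [Function.update_of_ne h]
        have := hu i
        linarith)
  rw [Function.iterate_one, deriv_lne, eval_lne, pow_one, one_pow, mul_one] at h3
  have e1 : Function.update u j (u j + 0) = u := by rw [add_zero, Function.update_eq_self]
  rw [e1] at h3
  rw [le_div_iff₀ hR]
  linarith

end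

end Pool.Agent.Helper83.NSA
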