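import Pool.Agent.Helper42.NS.Cnt
import Pool.Agent.Helper83.NSA.Rz

/-! COUNT over the base coordinates: a label with a polynomial which is small at the point and has a large derivative
in the coordinate `z` knows `z` up to the level of the sheet, given the other coordinates. -/

set_option autoImplicit false

namespace Pool.Agent.Helper83.NSA

open Finset Filter Topology Matrix Pool.Agent.Helper69.RK Pool.Agent.Helper31.EC Pool.Agent.Helper40.EL
open Pool.Agent.Helper31.EC.Sp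
open Pool.Agent.Helper95.LF Pool.Agent.Helper89.LX Pool.Agent.Helper3.LF Pool.Agent.Helper42.NS

noncomputable section

variable {S : Sp} {q : ℕ}

/-- the coordinates different from `i` -/
def oth (y : S.VV (q + 1)) (i : Fin (q + 1)) : S.VV q where
  v := fun k ω j => y.v k ω (i.succAbove j)
  bd := by
    obtain ⟨L, hL, h⟩ := y.bd
    exact ⟨L, hL, h.mono fun k a ω hω j => a ω hω _⟩

theorem dl_eq' (S : Sp) (r : ℝ) (k : ℕ) : S.dl r k = 2 ^ (-(r * (S.F k).n)) := rfl

theorem oth_dg_le (y : S.VV (q + 1)) (i : Fin (q + 1)) (r : ℝ) : (oth y i).dg r ≤ y.dg r := by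
  apply VV.dg_le_dg _ _ _ _ (fun _ _ => True) Typ_true (fun _ => 1) (S.Sub_const zero_le_one)
  refine Eventually.of_forall fun k ω ω' _ _ _ _ _ g j => ?_
  rw [one_mul]
  exact g _

theorem dg_le_oth (y : S.VV (q + 1)) (i : Fin (q + 1)) (r : ℝ) : y.dg r ≤ (y.co i).dg r ⊔ (oth y i).dg r := by
  apply VV.dg_le_dg2 _ _ _ _ _ _ (fun _ _ => True) Typ_true (fun _ => 1) (S.Sub_const zero_le_one)
  refine Eventually.of_forall fun k ω ω' _ _ _ _ _ g g' j => ?_
  rw [one_mul]
  rcases Fin.eq_self_or_eq_succAbove i j with h | ⟨j', h⟩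
  · rw [h]
    exact g 0
  · rw [h]
    exact g' j'

/-- the sheet condition at a point, with errors `2 ^ (e n)` -/
structure ShP {N D : ℕ} (v : Mon N D → ℝ) (p : Fin N → ℝ) (i : Fin N) (n σ b e K : ℝ) : Prop where
  sm : |MvPolynomial.eval p (pol v)| ≤ K * 2 ^ ((-σ + e) * n)
  dz : 1 ≤ K * 2 ^ (e * n) * |MvPolynomial.eval p (MvPolynomial.pderiv i (pol v))|
  gr : ∀ u : Fin N → ℝ, (∀ j, |u j - p j| ≤ 2 ^ (-(b * n))) → ∀ j,
    |MvPolynomial.eval u (MvPolynomial.pderiv j (pol v))| ≤ K * 2 ^ (e * n)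

/-- moving the other coordinates to the corner of the cell -/
theorem ShP.move {N D : ℕ} {v : Mon N D → ℝ} {p : Fin N → ℝ} {i : Fin N} {n σ b e K : ℝ} (h : ShP v p i n σ b e K)
    (hK : 0 ≤ K) (p' : Fin N → ℝ) (hp : ∀ j, |p' j - p j| ≤ 2 ^ (-(σ * n)))
    (hsm : 2 ^ (-(σ * n)) ≤ (2 : ℝ) ^ (-(b * n)) / 2)
    (hsm2 : (N * (2 * Cu D)) * (K * K) * 2 ^ ((b + 2 * e - σ) * n) ≤ 1 / 2) :
    |MvPolynomial.eval p' (pol v)| ≤ (N + 1) * K * 2 ^ ((-σ + e) * n) ∧
      1 ≤ 2 * K * 2 ^ (e * n) * |MvPolynomial.eval p' (MvPolynomial.pderiv i (pol v))| := by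
  have hσb : (2 : ℝ) ^ (-(σ * n)) ≤ 2 ^ (-(b * n)) := by
    have : (0 : ℝ) < 2 ^ (-(b * n)) := by positivity
    linarith
  constructor
  · have h1 := dif_le (pol v) p p' (2 ^ (-(σ * n))) (K * 2 ^ (e * n)) hp
      (fun u hu j => h.gr u (fun j' => (hu j').trans hσb) j)
    have e1 : (2 : ℝ) ^ (-(σ * n)) * (K * 2 ^ (e * n)) = K * 2 ^ ((-σ + e) * n) := by
      have : (2 : ℝ) ^ ((-σ + e) * n) = 2 ^ (-(σ * n)) * 2 ^ (e * n) := by
        rw [← Real.rpow_add (by norm_num)]
        congr 1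
        ring
      rw [this]
      ring
    rw [e1] at h1
    have h2 := h.sm
    have h3 : |MvPolynomial.eval p' (pol v)| ≤ |MvPolynomial.eval p' (pol v) - MvPolynomial.eval p (pol v)| +
        |MvPolynomial.eval p (pol v)| := by
      have := abs_add_le (MvPolynomial.eval p' (pol v) - MvPolynomial.eval p (pol v)) (MvPolynomial.eval p (pol v))
      rwa [sub_add_cancel] at this
    calc |MvPolynomial.eval p' (pol v)| ≤ N * (K * 2 ^ ((-σ + e) * n)) + K * 2 ^ ((-σ + e) * n) := by linarith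
      _ = (N + 1) * K * 2 ^ ((-σ + e) * n) := by ring
  · set g := MvPolynomial.pderiv i (pol v) with hg
    have hR : (0 : ℝ) < 2 ^ (-(b * n)) := by positivity
    have hgd : g.totalDegree ≤ D := by
      refine le_trans ?_ (pol_deg v)
      exact Pool.Agent.Helper80.LF.pderiv_deg _ _
    have h1 := dif_le g p p' (2 ^ (-(σ * n))) (2 * Cu D * (K * 2 ^ (e * n)) / 2 ^ (-(b * n))) hp
      (fun u hu j => der_box D g hgd p (2 ^ (-(b * n))) (K * 2 ^ (e * n)) hR (fun w hw => h.gr w hw i) u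
        (fun j' => (hu j').trans hsm) j)
    set A := |MvPolynomial.eval p' g - MvPolynomial.eval p g| with hA
    have h2 : |MvPolynomial.eval p g| ≤ |MvPolynomial.eval p' g| + A := by
      have := abs_add_le (MvPolynomial.eval p' g) (MvPolynomial.eval p g - MvPolynomial.eval p' g)
      rw [add_sub_cancel, abs_sub_comm (MvPolynomial.eval p g)] at this
      exact this
    have h3 : K * 2 ^ (e * n) * A ≤ 1 / 2 := by
      have e1 : K * 2 ^ (e * n) * (N * (2 ^ (-(σ * n)) * (2 * Cu D * (K * 2 ^ (e * n)) / 2 ^ (-(b * n))))) =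
          (N * (2 * Cu D)) * (K * K) * 2 ^ ((b + 2 * e - σ) * n) := by
        have e2 : (2 : ℝ) ^ ((b + 2 * e - σ) * n) = 2 ^ (e * n) * 2 ^ (e * n) * 2 ^ (-(σ * n)) / 2 ^ (-(b * n)) := by
          rw [← Real.rpow_add (by norm_num), ← Real.rpow_add (by norm_num), ← Real.rpow_sub (by norm_num)]
          congr 1
          ring
        rw [e2]
        field_simp
      calc K * 2 ^ (e * n) * A ≤ K * 2 ^ (e * n) * (N * (2 ^ (-(σ * n)) * (2 * Cu D * (K * 2 ^ (e * n)) / 2 ^ (-(b * n))))) :=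
            mul_le_mul_of_nonneg_left h1 (by positivity)
        _ ≤ 1 / 2 := by rw [e1]; exact hsm2
    have h4 := h.dz
    have h5 : 1 ≤ K * 2 ^ (e * n) * |MvPolynomial.eval p' g| + 1 / 2 := by
      calc (1 : ℝ) ≤ K * 2 ^ (e * n) * |MvPolynomial.eval p g| := h4
        _ ≤ K * 2 ^ (e * n) * (|MvPolynomial.eval p' g| + A) := mul_le_mul_of_nonneg_left h2 (by positivity)
        _ = K * 2 ^ (e * n) * |MvPolynomial.eval p' g| + K * 2 ^ (e * n) * A := by ring
        _ ≤ _ := by linarith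
    nlinarith

/-- digits in the space over a label -/
theorem u1_chg (l : Lab S) {p : ℕ} (y : S.VV p) (r : ℝ) :
    u1 l (y.dg r) = ((l.pj.vv y).chg l.V 1 one_pos).dg r := by
  rw [VV.chg_dg, one_mul, u1_dg]

/-- **COUNT over the base coordinates**: a label with a polynomial sheet knows the coordinate `z` up to the level of the
sheet, given the height and the other coordinates, up to `2 e` -/
theorem zc_gen (s : Sys S (q + 1)) (i : Fin (q + 1)) {D : ℕ} {σ b e : ℝ} (h0 : 0 ≤ σ) (h1 : σ ≤ 1) (he : 0 ≤ e)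
    (hb : b + 2 * e < σ) (l : Lab S) (v : ∀ k, (l k).T.Ω → Mon (q + 1 + 1) D → ℝ)
    (hv : ∀ᶠ k in UF, ∀ ω ω', (l k).T.μ ω ≠ 0 → (l k).T.μ ω' ≠ 0 → (l k).V ω ω' → (l k).T.Z ω ω' → v k ω = v k ω')
    (K : ℕ → ℝ) (hK : S.Sub K)
    (hT : Sp.Typ (S := l.sp) (fun k (ω : (l k).T.Ω) =>
      ShP (v k ω) (ptf s k ((l k).p.π ω)) i.succ (S.F k).n σ b e (K k))) :
    h (u1 l ((s.P.co i).dg σ)) (u1 l (s.T ⊔ (oth s.P i).dg σ)) ≤ 2 * e := by
  classical
  set tV : (osp l).VV 1 := (l.pj.vv s.t).chg l.V 1 one_pos with htV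
  set mV : (osp l).VV q := (l.pj.vv (oth s.P i)).chg l.V 1 one_pos with hmV
  set zV : (osp l).VV 1 := (l.pj.vv (s.P.co i)).chg l.V 1 one_pos with hzV
  set A : (osp l).Inf := Inf.sup (tV.bdd 1).toInf (mV.bdd σ).toInf with hA
  have hcl : cl A = u1 l (s.T ⊔ (oth s.P i).dg σ) := by
    rw [hA, cl_sup, u1_sup]
    have e1 : u1 l s.T = tV.dg 1 := u1_chg l s.t 1
    have e2 : u1 l ((oth s.P i).dg σ) = mV.dg σ := u1_chg l _ σ
    rw [e1, e2]
    unfold Sp.VV.dg
    rw [Sp.io_eq (tV.bdd 1), Sp.io_eq (mV.bdd σ)]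
  rw [← hcl, u1_chg l (s.P.co i) σ]
  -- the corner of the cell
  set y0 : ∀ k, (l k).T.Ω → Fin (q + 1 + 1) → ℝ := fun k ω => Fin.cons
    (⌊s.t.v k ((l k).p.π ω) 0 / S.dl 1 k⌋ * S.dl 1 k)
    (fun j => if hj : j = i then 0 else ⌊s.P.v k ((l k).p.π ω) j / S.dl σ k⌋ * S.dl σ k) with hy0
  have hTsub : ∀ {L : ℕ → ℝ}, S.Sub L → (osp l).Sub L := fun hL => chg_sub l.V 1 one_pos ((sp_Sub l).mpr hL)
  obtain ⟨Kp, hKp, hpb⟩ := ptf_bd s
  set K' : ℕ → ℝ := fun k => Kp k + (((q + 1 + 1 : ℕ) : ℝ) + 1) * K k + 2 * K k with hK'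
  have hN0 : (0 : ℝ) ≤ (((q + 1 + 1 : ℕ) : ℝ) + 1) := by positivity
  have hKs : S.Sub K' := (hKp.add ((S.Sub_const hN0).mul hK)).add ((S.Sub_const (by norm_num : (0 : ℝ) ≤ 2)).mul hK)
  have hCu : 0 ≤ ((q + 1 + 1 : ℕ) : ℝ) * (2 * Cu D) := by
    have := Cu_one D
    positivity
  have hS2 : S.Sub (fun k => ((q + 1 + 1 : ℕ) * (2 * Cu D)) * (K k * K k)) := (S.Sub_const hCu).mul (hK.mul hK)
  have hmain := Pool.Agent.Helper80.LF.h_leaf (S := osp l) (m := 0) (J := 1) (D := D) zV σ 0 e h0 he A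
    (fun k ω _ => MvPolynomial.C (2 ^ (σ * (S.F k).n)) * rz i.succ (y0 k ω) (pol (v k ω)))
    (fun k ω => fun _ => 0) ?_ ?_
    (fun k ω => ShP (v k ω) (ptf s k ((l k).p.π ω)) i.succ (S.F k).n σ b e (K k)) hT K' (hTsub hKs) ?_
  · refine hmain.trans (le_of_eq ?_)
    push_cast
    ring
  · -- measurability
    filter_upwards [hv] with k hk ω ω' a a' g gz
    refine ⟨?_, rfl⟩
    funext _
    have g3 : (l k).V ω' ω := gz.1
    have g2 : (l k).T.Z ω' ω := gz.2
    rw [hk ω' ω a' a g3 g2]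
    have g4 : tV.cellv 1 k ω' = tV.cellv 1 k ω := g.1
    have g5 : mV.cellv σ k ω' = mV.cellv σ k ω := g.2
    have e1 : y0 k ω' = y0 k ω := by
      rw [hy0]
      simp only
      congr 1
      · have g6 : ⌊s.t.v k ((l k).p.π ω') 0 / (osp l).dl 1 k⌋ = ⌊s.t.v k ((l k).p.π ω) 0 / (osp l).dl 1 k⌋ :=
          congrFun g4 0
        rw [osp_dl] at g6
        rw [g6]
      · funext j
        by_cases hj : j = i
        · rw [dif_pos hj, dif_pos hj]
        · rw [dif_neg hj, dif_neg hj]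
          rcases Fin.eq_self_or_eq_succAbove i j with h | ⟨j', h⟩
          · exact absurd h hj
          · have g6 : ⌊s.P.v k ((l k).p.π ω') (i.succAbove j') / (osp l).dl σ k⌋ =
                ⌊s.P.v k ((l k).p.π ω) (i.succAbove j') / (osp l).dl σ k⌋ := congrFun g5 j'
            rw [osp_dl] at g6
            rw [h, g6]
    rw [e1]
  · -- degrees
    intro k ω _
    refine (MvPolynomial.totalDegree_mul _ _).trans ?_
    rw [MvPolynomial.totalDegree_C, zero_add]
    exact (rz_deg _ _ _).trans (pol_deg _)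
  · -- the bounds
    have hsm := hS2.eventually_le (show 0 < (σ - b - 2 * e) / 2 by linarith)
    have hsm3 : ∀ᶠ k in UF, (2 : ℝ) ≤ 2 ^ ((σ - b - 2 * e) / 2 * (S.F k).n) := by
      have h2 := (S.Sub_const (by norm_num : (0 : ℝ) ≤ 2)).eventually_le (show 0 < (σ - b - 2 * e) / 2 by linarith)
      exact h2.mono fun k hk => by linarith
    filter_upwards [hsm, hsm3, hpb, hK.1, hKp.1] with k a1 a3 a4 a5 a6 ω hω hE
    have hn := (S.F k).pos
    have hn1 : ((osp l).F k).n = (S.F k).n := by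
      have e1 : ((osp l).F k).n = 1 * (l k).T.n := rfl
      rw [e1, one_mul, (l k).hn]
    have hw : (S.F k).μ ((l k).p.π ω) ≠ 0 := (l k).p.supp ω hω
    set w := (l k).p.π ω with hwd
    set n := (S.F k).n with hnd
    have hz : ptf s k w i.succ = s.P.v k w i := rfl
    set p' : Fin (q + 1 + 1) → ℝ := Function.update (y0 k ω) i.succ (s.P.v k w i) with hp'
    have d1 : S.dl 1 k ≤ S.dl σ k := S.dl_anti h1 k
    have d0 : 0 < S.dl σ k := S.dl_pos σ k
    have hp'c : ∀ j, |p' j - ptf s k w j| ≤ 2 ^ (-(σ * n)) := by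
      intro j
      have e0 : (2 : ℝ) ^ (-(σ * n)) = S.dl σ k := rfl
      rw [e0]
      refine Fin.cases ?_ (fun j => ?_) j
      · have e1 : p' 0 = ⌊s.t.v k w 0 / S.dl 1 k⌋ * S.dl 1 k := by
          rw [hp', Function.update_of_ne (Fin.succ_ne_zero i).symm]
          rfl
        have e2 : ptf s k w 0 = s.t.v k w 0 := rfl
        rw [e1, e2]
        have f1 := Int.floor_le (s.t.v k w 0 / S.dl 1 k)
        have f2 := Int.lt_floor_add_one (s.t.v k w 0 / S.dl 1 k)
        have d1' := S.dl_pos 1 k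
        rw [le_div_iff₀ d1'] at f1
        rw [div_lt_iff₀ d1'] at f2
        rw [abs_le]
        constructor <;> nlinarith
      · by_cases hj : j = i
        · rw [hp', hj, Function.update_self, hz, sub_self, abs_zero]
          exact d0.le
        · have e1 : p' j.succ = ⌊s.P.v k w j / S.dl σ k⌋ * S.dl σ k := by
            rw [hp', Function.update_of_ne (fun h => hj (Fin.succ_injective _ h))]
            show (if hj : j = i then (0 : ℝ) else ⌊s.P.v k w j / S.dl σ k⌋ * S.dl σ k) = _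
            rw [dif_neg hj]
          have e2 : ptf s k w j.succ = s.P.v k w j := rfl
          rw [e1, e2]
          have f1 := Int.floor_le (s.P.v k w j / S.dl σ k)
          have f2 := Int.lt_floor_add_one (s.P.v k w j / S.dl σ k)
          rw [le_div_iff₀ d0] at f1
          rw [div_lt_iff₀ d0] at f2
          rw [abs_le]
          constructor <;> nlinarith
    have hbσ : (2 : ℝ) ^ (-(σ * n)) ≤ 2 ^ (-(b * n)) / 2 := by
      rw [le_div_iff₀ (by norm_num)]
      have e1 : (2 : ℝ) ^ ((σ - b - 2 * e) / 2 * n) ≤ 2 ^ ((σ - b) * n) := by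
        apply Real.rpow_le_rpow_of_exponent_le (by norm_num)
        apply mul_le_mul_of_nonneg_right _ hn.le
        linarith
      have e2 : (2 : ℝ) ^ (-(σ * n)) * 2 ^ ((σ - b) * n) = 2 ^ (-(b * n)) := by
        rw [← Real.rpow_add (by norm_num)]
        congr 1
        ring
      rw [← e2]
      exact mul_le_mul_of_nonneg_left (a3.trans e1) (by positivity)
    have hsm2 : (((q + 1 + 1 : ℕ) : ℝ) * (2 * Cu D)) * (K k * K k) * 2 ^ ((b + 2 * e - σ) * n) ≤ 1 / 2 := by
      have e1 : (2 : ℝ) ^ ((σ - b - 2 * e) / 2 * n) * 2 ^ ((b + 2 * e - σ) * n) =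
          2 ^ (-((σ - b - 2 * e) / 2 * n)) := by
        rw [← Real.rpow_add (by norm_num)]
        congr 1
        ring
      have e2 : (2 : ℝ) ^ (-((σ - b - 2 * e) / 2 * n)) ≤ 1 / 2 := by
        rw [Real.rpow_neg (by norm_num), one_div]
        exact inv_anti₀ (by norm_num) a3
      have e3 : (((q + 1 + 1 : ℕ) : ℝ) * (2 * Cu D)) * (K k * K k) ≤ (2 : ℝ) ^ ((σ - b - 2 * e) / 2 * n) := by
        linarith
      refine (mul_le_mul_of_nonneg_right e3 (by positivity)).trans ?_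
      rw [e1]
      exact e2
    obtain ⟨g1, g2⟩ := hE.move a5 p' hp'c hbσ hsm2
    have hKK : 0 ≤ K' k := by
      rw [hK']
      positivity
    refine ⟨fun j => ?_, 0, 0, ?_, ?_⟩
    · have e1 : zV.v k ω j = s.P.v k w i := rfl
      have e2 : (osp l).dl 0 k = 1 := by
        rw [osp_dl]
        unfold Sp.dl
        simp
      rw [e1, e2, sub_zero, mul_one]
      have e3 := a4 w hw i.succ
      rw [hz] at e3
      refine e3.trans ?_
      rw [hK']
      have : 0 ≤ (((q + 1 + 1 : ℕ) : ℝ) + 1) * K k := by positivity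
      linarith
    · have e1 : zV.v k ω 0 = s.P.v k w i := rfl
      rw [map_mul, MvPolynomial.eval_C, eval_rz, e1, hn1, abs_mul, abs_of_pos (by positivity)]
      have e2 : (2 : ℝ) ^ (σ * n) * 2 ^ ((-σ + e) * n) = 2 ^ (e * n) := by
        rw [← Real.rpow_add (by norm_num)]
        congr 1
        ring
      calc (2 : ℝ) ^ (σ * n) * |MvPolynomial.eval p' (pol (v k ω))| ≤
          2 ^ (σ * n) * ((((q + 1 + 1 : ℕ) : ℝ) + 1) * K k * 2 ^ ((-σ + e) * n)) :=
            mul_le_mul_of_nonneg_left g1 (by positivity)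
        _ = (((q + 1 + 1 : ℕ) : ℝ) + 1) * K k * (2 ^ (σ * n) * 2 ^ ((-σ + e) * n)) := by ring
        _ = (((q + 1 + 1 : ℕ) : ℝ) + 1) * K k * 2 ^ (e * n) := by rw [e2]
        _ ≤ K' k * 2 ^ (e * n) := by
            apply mul_le_mul_of_nonneg_right _ (by positivity)
            rw [hK']
            simp only
            linarith
    · have e1 : zV.v k ω 0 = s.P.v k w i := rfl
      rw [MvPolynomial.pderiv_C_mul, map_mul, MvPolynomial.eval_C, pderiv_rz, eval_rz, e1, hn1, abs_mul,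
        abs_of_pos (show (0 : ℝ) < 2 ^ (σ * n) by positivity)]
      have e2 : (2 : ℝ) ^ ((σ - e) * n) * 2 ^ (e * n) = 2 ^ (σ * n) := by
        rw [← Real.rpow_add (by norm_num)]
        congr 1
        ring
      set d := |MvPolynomial.eval p' (MvPolynomial.pderiv i.succ (pol (v k ω)))| with hd
      have hd0 : 0 ≤ d := abs_nonneg _
      calc (2 : ℝ) ^ ((σ - e) * n) = 2 ^ ((σ - e) * n) * 1 := (mul_one _).symm
        _ ≤ 2 ^ ((σ - e) * n) * (2 * K k * 2 ^ (e * n) * d) := mul_le_mul_of_nonneg_left g2 (by positivity)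
        _ = 2 * K k * ((2 ^ ((σ - e) * n) * 2 ^ (e * n)) * d) := by ring
        _ = 2 * K k * (2 ^ (σ * n) * d) := by rw [e2]
        _ ≤ K' k * (2 ^ (σ * n) * d) := by
            apply mul_le_mul_of_nonneg_right _ (by positivity)
            rw [hK']
            simp only
            have : 0 ≤ (((q + 1 + 1 : ℕ) : ℝ) + 1) * K k := by positivity
            linarith

end

end Pool.Agent.Helper83.NSA
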